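import Pool.Agent.V7H95.Kik.Top

set_option autoImplicit false

open MeasureTheory ProbabilityTheory Finset Filter Topology

namespace Pool.Agent.V7H95.Kik

theorem tendsto_log : Tendsto (fun n : ℕ => Real.log n) atTop atTop :=
  Real.tendsto_log_atTop.comp tendsto_natCast_atTop_atTop

theorem tendsto_sqrt : Tendsto (fun n : ℕ => Real.sqrt n) atTop atTop :=
  Real.tendsto_sqrt_atTop.comp tendsto_natCast_atTop_atTop

theorem tendsto_log_sq_div : Tendsto (fun n : ℕ => (Real.log n) ^ 2 / Real.sqrt n) atTop (𝓝 0) := by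
  have h := (isLittleO_log_rpow_rpow_atTop (s := 1 / 2) 2 (by norm_num)).tendsto_div_nhds_zero
  have h2 := h.comp (tendsto_natCast_atTop_atTop (R := ℝ))
  refine h2.congr fun n => ?_
  simp only [Function.comp_apply, Real.rpow_two, Real.sqrt_eq_rpow]

/-- a power of two near `(log n) ^ 2` -/
theorem exists_pow (n : ℕ) (hn : 1 ≤ Real.log n) :
    ∃ j : ℕ, (Real.log n) ^ 2 ≤ (2 ^ (j + 1) : ℕ) ∧ ((2 ^ (j + 1) : ℕ) : ℝ) ≤ 2 * (Real.log n) ^ 2 := by
  obtain ⟨j, h1, h2⟩ := exists_nat_pow_near (x := (Real.log n) ^ 2) (y := (2 : ℝ))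
    (by nlinarith) (by norm_num)
  refine ⟨j, ?_, ?_⟩
  · push_cast; exact h2.le
  · push_cast; rw [pow_succ]; linarith

/-- `n ^ l (1 + η) ^ (-(log n) ^ 2) → 0` -/
theorem tendsto_super (l : ℕ) {η : ℝ} (hη : 0 < η) :
    Tendsto (fun n : ℕ => (n : ℝ) ^ l * Real.exp (-(Real.log (1 + η) * (Real.log n) ^ 2)))
      atTop (𝓝 0) := by
  have hc : 0 < Real.log (1 + η) := Real.log_pos (by linarith)
  have h1 : Tendsto (fun x : ℝ => Real.exp (l * x - Real.log (1 + η) * x ^ 2)) atTop (𝓝 0) := by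
    apply Real.tendsto_exp_atBot.comp
    have h2 : Tendsto (fun x : ℝ => x * (l - Real.log (1 + η) * x)) atTop atBot := by
      apply Tendsto.atTop_mul_atBot₀ tendsto_id
      have h3 : Tendsto (fun x : ℝ => Real.log (1 + η) * x) atTop atTop :=
        tendsto_id.const_mul_atTop hc
      have h4 := tendsto_neg_atTop_atBot.comp h3
      have h5 := tendsto_atBot_add_const_left atTop (l : ℝ) h4
      refine h5.congr fun x => ?_
      simp only [Function.comp_apply]; ring
    refine h2.congr fun x => by ring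
  have h2 := h1.comp tendsto_log
  refine h2.congr' ?_
  filter_upwards [eventually_ge_atTop 1] with n hn
  have hn0 : (0 : ℝ) < n := by exact_mod_cast hn
  simp only [Function.comp_apply]
  rw [sub_eq_add_neg, Real.exp_add]
  congr 1
  rw [mul_comm, Real.exp_mul, Real.exp_log hn0, Real.rpow_natCast]

/-- the limiting constant for the pure noise -/
noncomputable def kap (k l : ℕ) : ℝ :=
  2 * Real.sqrt ((l.choose k : ℝ) / k.factorial * (l / k))

theorem Lam_opt {n l k N : ℕ} (hk : 1 ≤ k) (hkl : k ≤ l) (hn : 1 ≤ n) {y : ℝ} (hy : 1 ≤ y) :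
    ∃ b : ℝ, 0 < b ∧ Lam n l k N b y =
      2 * Real.sqrt ((l.choose k * ((n + (l + 2 * k * N) * y) ^ k / k.factorial)) *
        (l / k + N / y)) := by
  have hy0 : 0 < y := by linarith
  have hk0 : (0 : ℝ) < k := by exact_mod_cast hk
  have hl0 : (0 : ℝ) < l := by exact_mod_cast (by omega : 0 < l)
  have hn0 : (0 : ℝ) < n := by exact_mod_cast hn
  have hch : 0 < (l.choose k : ℝ) := by exact_mod_cast Nat.choose_pos hkl
  set P : ℝ := l.choose k * ((n + (l + 2 * k * N) * y) ^ k / k.factorial) with hP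
  set Q : ℝ := l / k + N / y with hQ
  have hP0 : 0 < P := by
    rw [hP]
    have : 0 < (n : ℝ) + (l + 2 * k * N) * y := by positivity
    positivity
  have hQ0 : 0 < Q := by rw [hQ]; positivity
  refine ⟨y ^ k * (Real.sqrt Q / Real.sqrt P), by positivity, ?_⟩
  unfold Lam
  rw [← hP, ← hQ, Real.sqrt_mul hP0.le]
  have h1 : Real.sqrt P * Real.sqrt P = P := Real.mul_self_sqrt hP0.le
  have h2 : Real.sqrt Q * Real.sqrt Q = Q := Real.mul_self_sqrt hQ0.le
  have h3 : Real.sqrt P ≠ 0 := (Real.sqrt_pos.2 hP0).ne'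
  have h4 : Real.sqrt Q ≠ 0 := (Real.sqrt_pos.2 hQ0).ne'
  have h5 : y ^ k * (Real.sqrt Q / Real.sqrt P) / y ^ k * P = Real.sqrt P * Real.sqrt Q := by
    rw [mul_div_cancel_left₀ _ (pow_pos hy0 k).ne']
    nth_rewrite 2 [← h1]
    field_simp
  have h6 : y ^ k / (y ^ k * (Real.sqrt Q / Real.sqrt P)) * Q = Real.sqrt P * Real.sqrt Q := by
    rw [← div_div, div_self (pow_pos hy0 k).ne']
    nth_rewrite 2 [← h2]
    field_simp
  rw [h5, h6]; ring

/-- the explicit upper bound -/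
noncomputable def Bd (k l : ℕ) (η : ℝ) (n : ℕ) : ℝ :=
  (1 + η) * (1 + (n : ℝ) ^ l * Real.exp (-(Real.log (1 + η) * (Real.log n) ^ 2))) *
    (2 * Real.sqrt ((l.choose k : ℝ) / k.factorial *
      (1 + (l / Real.sqrt n + 4 * k * ((Real.log n) ^ 2 / Real.sqrt n))) ^ k *
        (l / k + 2 * ((Real.log n) ^ 2 / Real.sqrt n))))

theorem Emax_le_Bd {k l : ℕ} (hk : 1 ≤ k) (hkl : k ≤ l) {η : ℝ} (hη : 0 < η) {n : ℕ}
    (hlog : 1 ≤ Real.log n) : Emax n (2 * k) l 0 ≤ Bd k l η n * Real.sqrt n ^ k := by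
  have hn : 1 ≤ n := by
    by_contra h
    have : n = 0 := by omega
    subst this
    simp at hlog
    linarith
  have hn0 : (0 : ℝ) < n := by exact_mod_cast hn
  have hn1 : (1 : ℝ) ≤ n := by exact_mod_cast hn
  have hk0 : (0 : ℝ) < k := by exact_mod_cast hk
  have hl0 : (0 : ℝ) < l := by exact_mod_cast (by omega : 0 < l)
  have hch : 0 < (l.choose k : ℝ) := by exact_mod_cast Nat.choose_pos hkl
  have hy : 1 ≤ Real.sqrt n := by rw [Real.one_le_sqrt]; exact hn1
  have hy0 : 0 < Real.sqrt n := by linarith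
  have hyy : Real.sqrt n * Real.sqrt n = n := Real.mul_self_sqrt hn0.le
  obtain ⟨j, hj1, hj2⟩ := exists_pow n hlog
  set N : ℕ := 2 ^ (j + 1) with hN
  obtain ⟨b, hb, hLam⟩ := Lam_opt (n := n) (N := N) hk hkl hn hy
  -- bound of `Lam`
  set R : ℝ := 2 * Real.sqrt ((l.choose k : ℝ) / k.factorial *
      (1 + (l / Real.sqrt n + 4 * k * ((Real.log n) ^ 2 / Real.sqrt n))) ^ k *
        (l / k + 2 * ((Real.log n) ^ 2 / Real.sqrt n))) with hR
  have hLam2 : Lam n l k N b (Real.sqrt n) ≤ R * Real.sqrt n ^ k := by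
    rw [hLam, hR]
    have e1 : ((n : ℝ) + (l + 2 * k * N) * Real.sqrt n) =
        n * (1 + (l + 2 * k * N) / Real.sqrt n) := by
      have h := Real.div_sqrt (x := (n : ℝ))
      rw [mul_add, mul_one, ← mul_div_assoc, mul_comm (n : ℝ) _, mul_div_assoc, h]
    have e2 : (n : ℝ) ^ k = (Real.sqrt n ^ k) ^ 2 := by
      nth_rewrite 1 [← hyy]
      rw [← sq, ← pow_mul, ← pow_mul, mul_comm]
    have e3 : (l.choose k : ℝ) * ((n + (l + 2 * k * N) * Real.sqrt n) ^ k / k.factorial) *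
        (l / k + N / Real.sqrt n) ≤
        ((l.choose k : ℝ) / k.factorial *
      (1 + (l / Real.sqrt n + 4 * k * ((Real.log n) ^ 2 / Real.sqrt n))) ^ k *
        (l / k + 2 * ((Real.log n) ^ 2 / Real.sqrt n))) * (Real.sqrt n ^ k) ^ 2 := by
      rw [e1, mul_pow, e2]
      have e4 : (1 + ((l : ℝ) + 2 * k * N) / Real.sqrt n) ≤
          (1 + (l / Real.sqrt n + 4 * k * ((Real.log n) ^ 2 / Real.sqrt n))) := by
        have : ((l : ℝ) + 2 * k * N) / Real.sqrt n ≤
            (l + 2 * k * (2 * (Real.log n) ^ 2)) / Real.sqrt n := by gcongr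
        refine add_le_add_right (this.trans (le_of_eq ?_)) 1
        field_simp
        ring
      have e5 : (l : ℝ) / k + N / Real.sqrt n ≤ l / k + 2 * ((Real.log n) ^ 2 / Real.sqrt n) := by
        have : (N : ℝ) / Real.sqrt n ≤ (2 * (Real.log n) ^ 2) / Real.sqrt n := by gcongr
        refine add_le_add_right (this.trans (le_of_eq ?_)) _
        ring
      have e6 : (0 : ℝ) ≤ 1 + ((l : ℝ) + 2 * k * N) / Real.sqrt n := by positivity
      calc (l.choose k : ℝ) * ((Real.sqrt n ^ k) ^ 2 *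
            (1 + ((l : ℝ) + 2 * k * N) / Real.sqrt n) ^ k / k.factorial) *
            (l / k + N / Real.sqrt n)
          ≤ (l.choose k : ℝ) * ((Real.sqrt n ^ k) ^ 2 *
            (1 + (l / Real.sqrt n + 4 * k * ((Real.log n) ^ 2 / Real.sqrt n))) ^ k / k.factorial) *
            (l / k + 2 * ((Real.log n) ^ 2 / Real.sqrt n)) := by gcongr
        _ = _ := by ring
    calc 2 * Real.sqrt ((l.choose k : ℝ) * ((n + (l + 2 * k * N) * Real.sqrt n) ^ k / k.factorial) *
        (l / k + N / Real.sqrt n))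
        ≤ 2 * Real.sqrt (((l.choose k : ℝ) / k.factorial *
      (1 + (l / Real.sqrt n + 4 * k * ((Real.log n) ^ 2 / Real.sqrt n))) ^ k *
        (l / k + 2 * ((Real.log n) ^ 2 / Real.sqrt n))) * (Real.sqrt n ^ k) ^ 2) :=
          mul_le_mul_of_nonneg_left (Real.sqrt_le_sqrt e3) (by norm_num)
      _ = _ := by
          rw [Real.sqrt_mul' _ (by positivity), Real.sqrt_sq (by positivity)]
          ring
  have hLpos : 0 < Lam n l k N b (Real.sqrt n) := by
    rw [hLam]
    have : 0 < (l.choose k : ℝ) * ((n + (l + 2 * k * N) * Real.sqrt n) ^ k / k.factorial) *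
        (l / k + N / Real.sqrt n) := by
      have : 0 < (n : ℝ) + (l + 2 * k * N) * Real.sqrt n := by positivity
      positivity
    have := Real.sqrt_pos.2 this
    linarith
  set L := Lam n l k N b (Real.sqrt n) with hL
  have h1 := Emax_zero_le (n := n) (l := l) hk j (t := (1 + η) * L) hb hy (by positivity)
  rw [← hN, ← hL] at h1
  have hN1 : 1 ≤ N := Nat.one_le_two_pow
  have h2 : (n.choose l : ℝ) * L ^ N / ((1 + η) * L) ^ (N - 1) =
      (1 + η) * L * (n.choose l * ((1 + η) ^ N)⁻¹) := by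
    obtain ⟨m, hm⟩ : ∃ m, N = m + 1 := ⟨N - 1, by omega⟩
    rw [hm, Nat.add_sub_cancel, mul_pow]
    have h3 : (1 + η) ≠ 0 := by positivity
    have h4 := hLpos.ne'
    field_simp
    ring
  rw [h2] at h1
  have h3 : (n.choose l : ℝ) ≤ (n : ℝ) ^ l := by
    have h4 : n.choose l ≤ n ^ l := Nat.choose_le_pow n l
    exact_mod_cast h4
  have h4 : ((1 + η) ^ N)⁻¹ ≤ Real.exp (-(Real.log (1 + η) * (Real.log n) ^ 2)) := by
    rw [Real.exp_neg]
    apply inv_anti₀ (Real.exp_pos _)
    rw [Real.exp_mul, Real.exp_log (show (0 : ℝ) < 1 + η by linarith),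
      ← Real.rpow_natCast (1 + η) N]
    exact Real.rpow_le_rpow_of_exponent_le (show (1 : ℝ) ≤ 1 + η by linarith) hj1
  have h5 : 0 < (1 + η) := by linarith
  calc Emax n (2 * k) l 0 ≤ (1 + η) * L + (1 + η) * L * (n.choose l * ((1 + η) ^ N)⁻¹) := h1
    _ = (1 + η) * (1 + n.choose l * ((1 + η) ^ N)⁻¹) * L := by ring
    _ ≤ (1 + η) * (1 + (n : ℝ) ^ l * Real.exp (-(Real.log (1 + η) * (Real.log n) ^ 2))) *
        (R * Real.sqrt n ^ k) := by gcongr
    _ = _ := by unfold Bd; rw [← hR]; ring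

theorem tendsto_Bd (k l : ℕ) {η : ℝ} (hη : 0 < η) :
    Tendsto (Bd k l η) atTop (𝓝 ((1 + η) * kap k l)) := by
  unfold Bd kap
  have h1 := tendsto_super l hη
  have h2 : Tendsto (fun n : ℕ => (l : ℝ) / Real.sqrt n) atTop (𝓝 0) :=
    tendsto_sqrt.const_div_atTop _
  have h3 := tendsto_log_sq_div
  have h4 := ((h2.add (h3.const_mul (4 * (k : ℝ)))).const_add 1).pow k
  have h5 := (h3.const_mul (2 : ℝ)).const_add ((l : ℝ) / k)
  have h6 := ((h4.const_mul ((l.choose k : ℝ) / k.factorial)).mul h5)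
  have h7 := (Real.continuous_sqrt.tendsto _).comp h6
  have h8 := (((h1.const_add 1).const_mul (1 + η))).mul (h7.const_mul 2)
  simp only [mul_zero, add_zero, one_pow, mul_one] at h8
  exact h8

/-- the noise is at most `K n ^ (k/2)` for every `K > kap` -/
theorem noise_le {k l : ℕ} (hk : 1 ≤ k) (hkl : k ≤ l) {K : ℝ} (hK : kap k l < K) :
    ∀ᶠ n : ℕ in atTop, Emax n (2 * k) l 0 ≤ K * Real.sqrt n ^ k := by
  have hkap : 0 < kap k l := by
    unfold kap
    have hk0 : (0 : ℝ) < k := by exact_mod_cast hk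
    have hl0 : (0 : ℝ) < l := by exact_mod_cast (by omega : 0 < l)
    have hch : 0 < (l.choose k : ℝ) := by exact_mod_cast Nat.choose_pos hkl
    have : 0 < Real.sqrt ((l.choose k : ℝ) / k.factorial * (l / k)) :=
      Real.sqrt_pos.2 (by positivity)
    linarith
  set η := (K / kap k l - 1) / 2 with hη
  have h1 : 1 < K / kap k l := by rwa [one_lt_div hkap]
  have hη0 : 0 < η := by rw [hη]; linarith
  have h2 : (1 + η) * kap k l < K := by
    have h3 : (1 + η) < K / kap k l := by rw [hη]; linarith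
    rwa [lt_div_iff₀ hkap] at h3
  filter_upwards [(tendsto_Bd k l hη0).eventually (gt_mem_nhds h2),
    tendsto_log.eventually_ge_atTop 1] with n h3 h4
  refine (Emax_le_Bd hk hkl hη0 h4).trans ?_
  exact mul_le_mul_of_nonneg_right h3.le (by positivity)

/-- the signal -/
theorem signal_ge {k l : ℕ} {μ : ℝ} (hμ : 0 ≤ μ) {K : ℝ}
    (hK : K < μ * (l.choose k / k.factorial)) :
    ∀ᶠ n : ℕ in atTop, K * Real.sqrt n ^ k ≤
      Emax n (2 * k) l (μ * (n : ℝ) ^ (-((2 * k : ℕ) : ℝ) / 4)) := by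
  have h1 : Tendsto (fun n : ℕ => (((n - l + 1 - k : ℕ) : ℝ) / n)) atTop (𝓝 1) := by
    have h2 : Tendsto (fun n : ℕ => 1 - ((l : ℝ) + k) / n) atTop (𝓝 (1 - 0)) :=
      (tendsto_const_div_atTop_nhds_zero_nat ((l : ℝ) + k)).const_sub 1
    rw [sub_zero] at h2
    have h3 : Tendsto (fun n : ℕ => (1 : ℝ) + 1 / n) atTop (𝓝 (1 + 0)) :=
      (tendsto_const_div_atTop_nhds_zero_nat (1 : ℝ)).const_add 1
    rw [add_zero] at h3
    refine tendsto_of_tendsto_of_tendsto_of_le_of_le' h2 h3 ?_ ?_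
    · filter_upwards [eventually_ge_atTop (l + k + 1)] with n hn
      have hn0 : (0 : ℝ) < n := by exact_mod_cast (by omega : 0 < n)
      rw [le_div_iff₀ hn0, sub_mul, div_mul_cancel₀ _ hn0.ne', one_mul]
      have : (n : ℝ) ≤ ((n - l + 1 - k : ℕ) : ℝ) + (l + k) := by
        exact_mod_cast (by omega : n ≤ (n - l + 1 - k) + (l + k))
      linarith
    · filter_upwards [eventually_ge_atTop (l + k + 1)] with n hn
      have hn0 : (0 : ℝ) < n := by exact_mod_cast (by omega : 0 < n)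
      rw [div_le_iff₀ hn0, add_mul, div_mul_cancel₀ _ hn0.ne', one_mul]
      exact_mod_cast (by omega : n - l + 1 - k ≤ n + 1)
  have h2 := (h1.pow k).const_mul (μ * (l.choose k / k.factorial))
  rw [one_pow, mul_one] at h2
  filter_upwards [h2.eventually (lt_mem_nhds hK), eventually_ge_atTop (l + 1)] with n h3 hn
  have hn0 : (0 : ℝ) < n := by exact_mod_cast (by omega : 0 < n)
  have hy0 : 0 < Real.sqrt n := Real.sqrt_pos.2 hn0
  have hyy : Real.sqrt n * Real.sqrt n = n := Real.mul_self_sqrt hn0.le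
  have e1 : (n : ℝ) ^ (-((2 * k : ℕ) : ℝ) / 4) = (Real.sqrt n ^ k)⁻¹ := by
    rw [Real.sqrt_eq_rpow, ← Real.rpow_natCast, ← Real.rpow_mul hn0.le, ← Real.rpow_neg hn0.le]
    congr 1
    push_cast; ring
  rw [e1]
  have hc : 0 ≤ μ * (Real.sqrt n ^ k)⁻¹ := by positivity
  refine le_trans ?_ (Emax_ge (k := k) (l := l) (n := n) hc (by omega))
  have h4 := Nat.pow_le_choose (α := ℝ) k (n - l)
  have e2 : (n : ℝ) ^ k = Real.sqrt n ^ k * Real.sqrt n ^ k := by
    rw [← mul_pow, hyy]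
  calc K * Real.sqrt n ^ k
      ≤ (μ * (l.choose k / k.factorial) * (((n - l + 1 - k : ℕ) : ℝ) / n) ^ k) *
          Real.sqrt n ^ k := mul_le_mul_of_nonneg_right h3.le (by positivity)
    _ = μ * (Real.sqrt n ^ k)⁻¹ * (l.choose k *
          ((((n - l + 1 - k : ℕ) : ℝ)) ^ k / k.factorial)) := by
        rw [div_pow, e2]
        field_simp
    _ ≤ _ := by gcongr

/-- the explicit bound for the threshold -/
noncomputable def mu0 (k l : ℕ) : ℝ :=
  2 * Real.sqrt ((l * k.factorial : ℝ) / (k * l.choose k))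

theorem ratio_gt {k l : ℕ} (hk : 1 ≤ k) (hkl : k ≤ l) {μ : ℝ} (hμ : mu0 k l < μ) :
    ∃ ε : ℝ, 0 < ε ∧ ∀ᶠ n : ℕ in atTop, 1 + ε ≤
      Emax n (2 * k) l (μ * (n : ℝ) ^ (-((2 * k : ℕ) : ℝ) / 4)) / Emax n (2 * k) l 0 := by
  have hk0 : (0 : ℝ) < k := by exact_mod_cast hk
  have hl0 : (0 : ℝ) < l := by exact_mod_cast (by omega : 0 < l)
  have hch : 0 < (l.choose k : ℝ) := by exact_mod_cast Nat.choose_pos hkl
  have hmu0 : 0 < mu0 k l := by
    unfold mu0
    have : 0 < Real.sqrt ((l * k.factorial : ℝ) / (k * l.choose k)) :=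
      Real.sqrt_pos.2 (by positivity)
    linarith
  have hkap : 0 < kap k l := by
    unfold kap
    have : 0 < Real.sqrt ((l.choose k : ℝ) / k.factorial * (l / k)) :=
      Real.sqrt_pos.2 (by positivity)
    linarith
  have h1 : kap k l = mu0 k l * (l.choose k / k.factorial) := by
    unfold kap mu0
    have e1 : (l.choose k : ℝ) / k.factorial * (l / k) =
        (l * k.factorial : ℝ) / (k * l.choose k) * ((l.choose k : ℝ) / k.factorial) ^ 2 := by
      field_simp
    rw [e1, Real.sqrt_mul' _ (by positivity), Real.sqrt_sq (by positivity)]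
    ring
  have h2 : kap k l < μ * (l.choose k / k.factorial) := by
    rw [h1]
    exact mul_lt_mul_of_pos_right hμ (by positivity)
  obtain ⟨K1, hK1, hK1'⟩ := exists_between h2
  obtain ⟨K2, hK2, hK2'⟩ := exists_between hK1'
  have hK1pos : 0 < K1 := by linarith
  refine ⟨K2 / K1 - 1, ?_, ?_⟩
  · have : 1 < K2 / K1 := by rwa [one_lt_div hK1pos]
    linarith
  · filter_upwards [noise_le hk hkl hK1, signal_ge (by linarith) hK2',
      eventually_ge_atTop (l + k)] with n h3 h4 hn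
    have h5 := Emax_zero_pos hk hkl hn
    rw [add_sub_cancel, le_div_iff₀ h5]
    have hn0 : (0 : ℝ) < n := by exact_mod_cast (by omega : 0 < n)
    calc K2 / K1 * Emax n (2 * k) l 0 ≤ K2 / K1 * (K1 * Real.sqrt n ^ k) := by
          apply mul_le_mul_of_nonneg_left h3
          have : 0 < K2 := by linarith
          positivity
      _ = K2 * Real.sqrt n ^ k := by field_simp
      _ ≤ _ := h4

theorem mu0_tendsto {k : ℕ} (hk : 2 ≤ k) : Tendsto (mu0 k) atTop (𝓝 0) := by
  unfold mu0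
  have hk0 : (0 : ℝ) < k := by exact_mod_cast (by omega : 0 < k)
  have h1 : Tendsto (fun l : ℕ => (l * k.factorial : ℝ) / (k * l.choose k)) atTop (𝓝 0) := by
    -- `choose l k ≥ ((l + 1 - k) ^ 2) / k!`
    have h2 : ∀ᶠ l : ℕ in atTop, (l * k.factorial : ℝ) / (k * l.choose k) ≤
        ((k.factorial : ℝ) ^ 2 * 4) / l := by
      filter_upwards [eventually_ge_atTop (2 * k)] with l hl
      have hl0 : (0 : ℝ) < l := by exact_mod_cast (by omega : 0 < l)
      have h3 := Nat.pow_le_choose (α := ℝ) k l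
      have h4 : ((l : ℝ) / 2) ^ 2 / k.factorial ≤ l.choose k := by
        refine le_trans ?_ h3
        apply div_le_div_of_nonneg_right _ (by positivity)
        have h5 : (l : ℝ) / 2 ≤ ((l + 1 - k : ℕ) : ℝ) := by
          rw [div_le_iff₀ (by norm_num)]
          exact_mod_cast (by omega : l ≤ (l + 1 - k) * 2)
        have h6 : (1 : ℝ) ≤ ((l + 1 - k : ℕ) : ℝ) := by exact_mod_cast (by omega : 1 ≤ l + 1 - k)
        calc ((l : ℝ) / 2) ^ 2 ≤ ((l + 1 - k : ℕ) : ℝ) ^ 2 := by gcongr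
          _ ≤ ((l + 1 - k : ℕ) : ℝ) ^ k := pow_le_pow_right₀ h6 hk
      have h5 : 0 < ((l : ℝ) / 2) ^ 2 / k.factorial := by positivity
      have hch : 0 < (l.choose k : ℝ) := by linarith
      calc (l * k.factorial : ℝ) / (k * l.choose k)
          ≤ (l * k.factorial : ℝ) / (1 * (((l : ℝ) / 2) ^ 2 / k.factorial)) := by
            gcongr
            exact_mod_cast (by omega : 1 ≤ k)
        _ = ((k.factorial : ℝ) ^ 2 * 4) / l := by
            field_simp
            norm_num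
    refine squeeze_zero' (Eventually.of_forall fun l => by positivity) h2 ?_
    exact tendsto_const_div_atTop_nhds_zero_nat _
  have h2 := (Real.continuous_sqrt.tendsto _).comp h1
  have h3 := h2.const_mul 2
  simp only [Real.sqrt_zero, mul_zero] at h3
  exact h3

end Pool.Agent.V7H95.Kik
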