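import Mathlib

set_option autoImplicit false

open MeasureTheory ProbabilityTheory

namespace Pool.Agent.V7H95.Kik

/-- Hermite polynomials -/
def He : ℕ → ℝ → ℝ
  | 0, _ => 1
  | 1, x => x
  | (m + 2), x => x * He (m + 1) x - (m + 1) * He m x

theorem He_mul (m : ℕ) (x : ℝ) : x * He m x = He (m + 1) x + m * He (m - 1) x := by
  cases m with
  | zero => simp [He]
  | succ m =>
    simp only [He, Nat.add_sub_cancel]
    push_cast
    ring

theorem He_poly (m : ℕ) : ∃ P : Polynomial ℝ, ∀ x, He m x = P.eval x := by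
  induction m using Nat.strong_induction_on with
  | _ m ih =>
    match m with
    | 0 => exact ⟨1, fun x => by simp [He]⟩
    | 1 => exact ⟨Polynomial.X, fun x => by simp [He]⟩
    | (m + 2) =>
      obtain ⟨P, hP⟩ := ih (m + 1) (by omega)
      obtain ⟨Q, hQ⟩ := ih m (by omega)
      refine ⟨Polynomial.X * P - Polynomial.C ((m : ℝ) + 1) * Q, fun x => ?_⟩
      simp [He, hP, hQ]

theorem He_deriv (m : ℕ) (x : ℝ) : HasDerivAt (He m) (m * He (m - 1) x) x := by
  induction m using Nat.strong_induction_on with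
  | _ m ih =>
    match m with
    | 0 =>
      have : He 0 = fun _ => (1 : ℝ) := by funext y; simp [He]
      rw [this]
      simpa using hasDerivAt_const x (1 : ℝ)
    | 1 =>
      have : He 1 = fun y => y := by funext y; simp [He]
      rw [this]
      simpa [He] using hasDerivAt_id' x
    | (m + 2) =>
      have h1 := ih (m + 1) (by omega)
      have h2 := ih m (by omega)
      have h3 := ((hasDerivAt_id' x).mul h1).sub (h2.const_mul ((m : ℝ) + 1))
      have e : He (m + 2) = fun y => y * He (m + 1) y - ((m : ℝ) + 1) * He m y := by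
        funext y; simp [He]
      rw [e]
      refine h3.congr_deriv ?_
      have h4 := He_mul m x
      simp only [Nat.add_sub_cancel, show m + 2 - 1 = m + 1 from rfl]
      push_cast
      have h5 : x * (((m : ℝ) + 1) * He m x) = ((m : ℝ) + 1) * (He (m + 1) x + m * He (m - 1) x) := by
        rw [← h4]; ring
      linear_combination h5

/-- polynomials are integrable for the Gaussian measure -/
theorem poly_integrable (P : Polynomial ℝ) :
    Integrable (fun x => P.eval x) (gaussianReal 0 1) := by
  induction P using Polynomial.induction_on' with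
  | add p q hp hq =>
    simp only [Polynomial.eval_add]
    exact hp.add hq
  | monomial m a =>
    simp only [Polynomial.eval_monomial]
    refine Integrable.const_mul ?_ a
    rcases Nat.eq_zero_or_pos m with rfl | hm
    · simp
    · have h := (memLp_id_gaussianReal' (μ := 0) (v := 1) (m : ENNReal) (by simp)).integrable_norm_pow
        (by omega)
      have h2 := h.mono' (f := fun x : ℝ => x ^ m) (by fun_prop)
        (Filter.Eventually.of_forall fun x => by simp)
      exact h2

theorem He_integrable (m : ℕ) : Integrable (He m) (gaussianReal 0 1) := by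
  obtain ⟨P, hP⟩ := He_poly m
  have : He m = fun x => P.eval x := funext hP
  rw [this]
  exact poly_integrable P

theorem pdf_deriv (t : ℝ) :
    HasDerivAt (gaussianPDFReal 0 1) (-(t * gaussianPDFReal 0 1 t)) t := by
  have h : gaussianPDFReal 0 1 = fun x : ℝ =>
      (Real.sqrt (2 * Real.pi * ((1 : NNReal) : ℝ)))⁻¹ *
        Real.exp (-(x - 0) ^ 2 / (2 * ((1 : NNReal) : ℝ))) := by
    rw [gaussianPDFReal_def]
  rw [h]
  have h1 : HasDerivAt (fun x : ℝ => -(x - 0) ^ 2 / (2 * ((1 : NNReal) : ℝ))) (-t) t := by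
    have := (((hasDerivAt_id t).sub_const (0:ℝ)).pow 2).neg.div_const (2 * ((1 : NNReal) : ℝ))
    refine this.congr_deriv ?_
    simp only [id, sub_zero, NNReal.coe_one, mul_one]
    norm_num
    ring
  have h2 := (h1.exp).const_mul (Real.sqrt (2 * Real.pi * ((1 : NNReal) : ℝ)))⁻¹
  refine h2.congr_deriv ?_
  ring

theorem integrable_gauss_iff (f : ℝ → ℝ) (hf : Integrable f (gaussianReal 0 1)) :
    Integrable fun t => f t * gaussianPDFReal 0 1 t := by
  rw [gaussianReal_of_var_ne_zero 0 (by norm_num : (1 : NNReal) ≠ 0),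
    integrable_withDensity_iff_integrable_smul' (measurable_gaussianPDF 0 1)
      (Filter.Eventually.of_forall fun _ => gaussianPDF_lt_top)] at hf
  refine hf.congr (Filter.Eventually.of_forall fun t => ?_)
  simp only [smul_eq_mul, toReal_gaussianPDF]
  ring

/-- integration by parts for Hermite polynomials -/
theorem stein_He (m : ℕ) :
    ∫ t, t * He m t ∂(gaussianReal 0 1) = ∫ t, m * He (m - 1) t ∂(gaussianReal 0 1) := by
  obtain ⟨P, hP⟩ := He_poly m
  have i1 : Integrable (fun t => t * He m t) (gaussianReal 0 1) := by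
    have := poly_integrable (Polynomial.X * P)
    simpa [← hP] using this
  have i2 : Integrable (fun t => (m : ℝ) * He (m - 1) t) (gaussianReal 0 1) :=
    (He_integrable _).const_mul _
  have i3 := He_integrable m
  have j1 := integrable_gauss_iff _ i1
  have j2 := integrable_gauss_iff _ i2
  have j3 := integrable_gauss_iff _ i3
  have key := integral_mul_deriv_eq_deriv_mul_of_integrable (u := He m)
    (u' := fun t => m * He (m - 1) t)
    (v := gaussianPDFReal 0 1) (v' := fun t => -(t * gaussianPDFReal 0 1 t))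
    (fun x _ => He_deriv m x) (fun x _ => pdf_deriv x)
    (j1.neg.congr (Filter.Eventually.of_forall fun t => by
      simp only [Pi.neg_apply, Pi.mul_apply]; ring))
    (j2.congr (Filter.Eventually.of_forall fun t => by simp only [Pi.mul_apply]))
    (j3.congr (Filter.Eventually.of_forall fun t => by simp only [Pi.mul_apply]))
  rw [integral_gaussianReal_eq_integral_smul (by norm_num),
    integral_gaussianReal_eq_integral_smul (by norm_num)]
  have e1 : ∫ x, gaussianPDFReal 0 1 x • (x * He m x) =
      -∫ x, He m x * -(x * gaussianPDFReal 0 1 x) := by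
    rw [← integral_neg]
    congr 1; ext x; simp only [smul_eq_mul]; ring
  have e2 : ∫ x, gaussianPDFReal 0 1 x • ((m : ℝ) * He (m - 1) x) =
      ∫ x, ((m : ℝ) * He (m - 1) x) * gaussianPDFReal 0 1 x := by
    congr 1; ext x; simp only [smul_eq_mul]; ring
  rw [e1, e2, key, neg_neg]

theorem He_integral (m : ℕ) (hm : 1 ≤ m) : ∫ t, He m t ∂(gaussianReal 0 1) = 0 := by
  obtain ⟨j, rfl⟩ : ∃ j, m = j + 1 := ⟨m - 1, by omega⟩
  have h1 : ∀ t, He (j + 1) t = t * He j t - j * He (j - 1) t := fun t => by
    have := He_mul j t; linarith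
  obtain ⟨P, hP⟩ := He_poly j
  have i1 : Integrable (fun t => t * He j t) (gaussianReal 0 1) := by
    have := poly_integrable (Polynomial.X * P)
    simpa [← hP] using this
  have i2 : Integrable (fun t => (j : ℝ) * He (j - 1) t) (gaussianReal 0 1) :=
    (He_integrable _).const_mul _
  simp only [h1]
  rw [integral_sub i1 i2, stein_He, sub_self]

section
variable {κ : Type} [Fintype κ] [DecidableEq κ]

/-- the standard Gaussian measure -/
noncomputable abbrev G (κ : Type) [Fintype κ] : Measure (κ → ℝ) :=
  Measure.pi fun _ : κ => gaussianReal 0 1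

/-- polynomial functions -/
def PF (f : (κ → ℝ) → ℝ) : Prop := ∃ P : MvPolynomial κ ℝ, ∀ Z, f Z = MvPolynomial.eval Z P

omit [Fintype κ] [DecidableEq κ] in
theorem PF.const (c : ℝ) : PF (fun _ : κ → ℝ => c) := ⟨MvPolynomial.C c, fun Z => by simp⟩

omit [Fintype κ] [DecidableEq κ] in
theorem PF.coord (i : κ) : PF (fun Z : κ → ℝ => Z i) := ⟨MvPolynomial.X i, fun Z => by simp⟩

omit [Fintype κ] [DecidableEq κ] in
theorem PF.add {f g : (κ → ℝ) → ℝ} (hf : PF f) (hg : PF g) : PF (fun Z => f Z + g Z) := by
  obtain ⟨P, hP⟩ := hf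
  obtain ⟨Q, hQ⟩ := hg
  exact ⟨P + Q, fun Z => by simp [hP, hQ]⟩

omit [Fintype κ] [DecidableEq κ] in
theorem PF.mul {f g : (κ → ℝ) → ℝ} (hf : PF f) (hg : PF g) : PF (fun Z => f Z * g Z) := by
  obtain ⟨P, hP⟩ := hf
  obtain ⟨Q, hQ⟩ := hg
  exact ⟨P * Q, fun Z => by simp [hP, hQ]⟩

omit [Fintype κ] [DecidableEq κ] in
theorem PF.sum {ι : Type} (s : Finset ι) {f : ι → (κ → ℝ) → ℝ} (hf : ∀ i ∈ s, PF (f i)) :
    PF (fun Z => ∑ i ∈ s, f i Z) := by
  classical
  induction s using Finset.induction_on with
  | empty => simpa using PF.const 0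
  | insert a s ha ih =>
    simp only [Finset.sum_insert ha]
    exact (hf a (Finset.mem_insert_self _ _)).add (ih fun i hi => hf i (Finset.mem_insert_of_mem hi))

omit [Fintype κ] [DecidableEq κ] in
theorem PF.prod {ι : Type} (s : Finset ι) {f : ι → (κ → ℝ) → ℝ} (hf : ∀ i ∈ s, PF (f i)) :
    PF (fun Z => ∏ i ∈ s, f i Z) := by
  classical
  induction s using Finset.induction_on with
  | empty => simpa using PF.const 1
  | insert a s ha ih =>
    simp only [Finset.prod_insert ha]
    exact (hf a (Finset.mem_insert_self _ _)).mul (ih fun i hi => hf i (Finset.mem_insert_of_mem hi))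

omit [Fintype κ] [DecidableEq κ] in
theorem PF.he (m : ℕ) (i : κ) : PF (fun Z : κ → ℝ => He m (Z i)) := by
  obtain ⟨P, hP⟩ := He_poly m
  refine ⟨Polynomial.aeval (MvPolynomial.X i) P, fun Z => ?_⟩
  show He m (Z i) = _
  rw [hP, Polynomial.aeval_def, Polynomial.eval₂_eq_sum_range, Polynomial.eval_eq_sum_range]
  simp [map_sum]

omit [DecidableEq κ] in
theorem PF.integrable {f : (κ → ℝ) → ℝ} (hf : PF f) : Integrable f (G κ) := by
  obtain ⟨P, hP⟩ := hf
  have e : f = fun Z => MvPolynomial.eval Z P := funext hP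
  rw [e]
  clear e hP f
  induction P using MvPolynomial.induction_on' with
  | monomial u a =>
    simp only [MvPolynomial.eval_monomial]
    refine Integrable.const_mul ?_ a
    have h : ∀ Z : κ → ℝ, (u.prod fun i e => Z i ^ e) = ∏ i, Z i ^ u i := fun Z =>
      Finsupp.prod_fintype _ _ (by simp)
    simp only [h]
    refine Integrable.fintype_prod (f := fun i x => x ^ u i) fun i => ?_
    have := poly_integrable (Polynomial.X ^ u i)
    simpa using this
  | add p q hp hq =>
    simp only [map_add]
    exact hp.add hq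

/-- the Wick product with multiplicities `O` -/
def wick (O : κ → ℕ) (Z : κ → ℝ) : ℝ := ∏ S, He (O S) (Z S)

omit [DecidableEq κ] in
theorem wick_PF (O : κ → ℕ) : PF (wick O) :=
  PF.prod Finset.univ fun i _ => PF.he (O i) i

omit [DecidableEq κ] in
theorem wick_integral (O : κ → ℕ) :
    ∫ Z, wick O Z ∂(G κ) = if O = 0 then 1 else 0 := by
  unfold wick
  rw [integral_fintype_prod_eq_prod (fun S => He (O S))]
  split_ifs with h
  · subst h
    simp [He]
  · obtain ⟨S, hS⟩ : ∃ S, O S ≠ 0 := by
      by_contra hc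
      push Not at hc
      exact h (funext hc)
    exact Finset.prod_eq_zero (Finset.mem_univ S) (He_integral _ (by omega))

/-- multiplication by a coordinate -/
theorem wick_mul (O : κ → ℕ) (S : κ) (Z : κ → ℝ) :
    Z S * wick O Z = wick (O + Pi.single S 1) Z + O S * wick (O - Pi.single S 1) Z := by
  unfold wick
  rw [← Finset.mul_prod_erase _ _ (Finset.mem_univ S), ← Finset.mul_prod_erase _ _ (Finset.mem_univ S),
    ← Finset.mul_prod_erase _ _ (Finset.mem_univ S)]
  have e1 : ∏ x ∈ Finset.univ.erase S, He ((O + (Pi.single S 1 : κ → ℕ)) x) (Z x) =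
      ∏ x ∈ Finset.univ.erase S, He (O x) (Z x) := by
    refine Finset.prod_congr rfl fun x hx => ?_
    rw [Pi.add_apply, Pi.single_eq_of_ne (Finset.ne_of_mem_erase hx), add_zero]
  have e2 : ∏ x ∈ Finset.univ.erase S, He ((O - (Pi.single S 1 : κ → ℕ)) x) (Z x) =
      ∏ x ∈ Finset.univ.erase S, He (O x) (Z x) := by
    refine Finset.prod_congr rfl fun x hx => ?_
    rw [Pi.sub_apply, Pi.single_eq_of_ne (Finset.ne_of_mem_erase hx), Nat.sub_zero]
  rw [e1, e2]
  simp only [Pi.add_apply, Pi.sub_apply, Pi.single_eq_same]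
  rw [← mul_assoc, He_mul]
  ring

end

end Pool.Agent.V7H95.Kik
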