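import Pool.Agent.V7H95.Kik.Walk

set_option autoImplicit false

open MeasureTheory ProbabilityTheory Finset

namespace Pool.Agent.V7H95.Kik

/-- elementary symmetric polynomials are at most `(∑ w) ^ k / k!` -/
theorem esymm_le {α : Type} [DecidableEq α] (w : α → ℝ) (hw : ∀ x, 0 ≤ w x) (s : Finset α)
    (k : ℕ) : (k.factorial : ℝ) * ∑ B ∈ s.powersetCard k, ∏ x ∈ B, w x ≤ (∑ x ∈ s, w x) ^ k := by
  induction s using Finset.induction_on generalizing k with
  | empty =>
    cases k with
    | zero => simp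
    | succ k =>
      have : (∅ : Finset α).powersetCard (k + 1) = ∅ :=
        Finset.powersetCard_eq_empty.2 (by simp)
      simp [this]
  | insert a s ha ih =>
    cases k with
    | zero => simp
    | succ k =>
      rw [Finset.powersetCard_succ_insert ha, Finset.sum_union, Finset.sum_image,
        Finset.sum_insert ha]
      · have e1 : ∑ B ∈ s.powersetCard k, ∏ x ∈ insert a B, w x =
            w a * ∑ B ∈ s.powersetCard k, ∏ x ∈ B, w x := by
          rw [Finset.mul_sum]
          refine Finset.sum_congr rfl fun B hB => ?_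
          rw [Finset.prod_insert]
          intro h
          exact ha ((Finset.mem_powersetCard.1 hB).1 h)
        rw [e1]
        have h1 := ih (k + 1)
        have h2 := ih k
        have hW : 0 ≤ ∑ x ∈ s, w x := Finset.sum_nonneg fun x _ => hw x
        have h3 : (∑ x ∈ s, w x) ^ (k + 1) + (k + 1) * (w a * (∑ x ∈ s, w x) ^ k) ≤
            (w a + ∑ x ∈ s, w x) ^ (k + 1) := by
          generalize (∑ x ∈ s, w x) = W at hW
          have ha' := hw a
          generalize w a = u at ha'
          clear h1 h2 e1 ih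
          induction k with
          | zero => simp; linarith
          | succ k ih =>
            have h4 : (u + W) ^ (k + 1 + 1) = (u + W) * (u + W) ^ (k + 1) := by ring
            rw [h4]
            calc W ^ (k + 1 + 1) + ((k + 1 : ℕ) + 1) * (u * W ^ (k + 1))
                ≤ (u + W) * (W ^ (k + 1) + (k + 1) * (u * W ^ k)) := by
                  have : (u + W) * (W ^ (k + 1) + (k + 1) * (u * W ^ k)) -
                    (W ^ (k + 1 + 1) + ((k + 1 : ℕ) + 1) * (u * W ^ (k + 1))) =
                    (k + 1) * (u ^ 2 * W ^ k) := by push_cast; ring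
                  have h5 : 0 ≤ ((k : ℝ) + 1) * (u ^ 2 * W ^ k) := by positivity
                  linarith
              _ ≤ (u + W) * (u + W) ^ (k + 1) :=
                  mul_le_mul_of_nonneg_left ih (by linarith)
        refine le_trans ?_ h3
        rw [mul_add]
        refine add_le_add h1 ?_
        rw [Nat.factorial_succ]
        push_cast
        calc ((k : ℝ) + 1) * (k.factorial : ℝ) * (w a * ∑ B ∈ s.powersetCard k, ∏ x ∈ B, w x)
            = ((k : ℝ) + 1) * (w a * ((k.factorial : ℝ) * ∑ B ∈ s.powersetCard k, ∏ x ∈ B, w x)) := by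
              ring
          _ ≤ _ := by
              apply mul_le_mul_of_nonneg_left _ (by positivity)
              exact mul_le_mul_of_nonneg_left h2 (hw a)
      · intro B hB B' hB' h
        have h1 : a ∉ B := fun h => ha ((Finset.mem_powersetCard.1 hB).1 h)
        have h2 : a ∉ B' := fun h => ha ((Finset.mem_powersetCard.1 hB').1 h)
        rw [← Finset.erase_insert h1, h, Finset.erase_insert h2]
      · rw [Finset.disjoint_left]
        intro B hB hB'
        obtain ⟨B', _, rfl⟩ := Finset.mem_image.1 hB'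
        exact ha ((Finset.mem_powersetCard.1 hB).1 (Finset.mem_insert_self _ _))

section
variable {n l : ℕ}

/-- the vertices of the start and of the open hyperedges -/
def U (I0 : St n l) (O : Finset (Fin n) → ℕ) : Finset (Fin n) :=
  I0.1 ∪ univ.filter (fun x => ∃ S, O S ≠ 0 ∧ x ∈ S)

theorem mem_U {I0 : St n l} {O : Finset (Fin n) → ℕ} {x : Fin n} :
    x ∈ U I0 O ↔ x ∈ I0.1 ∨ ∃ S, O S ≠ 0 ∧ x ∈ S := by
  simp [U]

theorem U_zero (I0 : St n l) : U I0 0 = I0.1 := by
  ext x; simp [mem_U]

/-- the weight -/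
noncomputable def wt (I0 : St n l) (b y : ℝ) (O : Finset (Fin n) → ℕ) : ℝ :=
  b ^ (∑ S, O S) * y ^ l / y ^ (U I0 O).card

theorem wt_zero (I0 : St n l) (b y : ℝ) (hy : 0 < y) : wt I0 b y 0 = 1 := by
  unfold wt
  rw [U_zero, I0.2]
  simp only [Pi.zero_apply, Finset.sum_const_zero, pow_zero, one_mul]
  exact div_self (by positivity)

theorem wt_pos (I0 : St n l) (b y : ℝ) (hb : 0 < b) (hy : 0 < y) (O : Finset (Fin n) → ℕ) :
    0 < wt I0 b y O := by
  unfold wt; positivity

theorem Inv.subset {r : ℕ} {I0 I : St n l} {O : Finset (Fin n) → ℕ} (h : Inv r I0 I O) :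
    I.1 ⊆ U I0 O := by
  intro x hx
  rw [mem_U]
  by_contra hc
  push Not at hc
  have h1 := congrFun h.par x
  simp only [ind, hx, if_true, Pi.add_apply, hc.1, if_false, zero_add, Finset.sum_apply,
    Pi.smul_apply] at h1
  rw [Finset.sum_eq_zero] at h1
  · exact one_ne_zero h1
  · intro S _
    by_cases hS : O S = 0
    · simp [hS]
    · simp [hc.2 S hS]

theorem card_sdiff_eq {k : ℕ} {I J : St n l} (h : (symmDiff I.1 J.1).card = 2 * k) :
    (I.1 \ J.1).card = k ∧ (J.1 \ I.1).card = k := by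
  have h1 : (symmDiff I.1 J.1).card = (I.1 \ J.1).card + (J.1 \ I.1).card := by
    rw [symmDiff_def, Finset.sup_eq_union, Finset.card_union_of_disjoint]
    exact disjoint_sdiff_sdiff
  have h2 := Finset.card_sdiff_add_card_inter I.1 J.1
  have h3 := Finset.card_sdiff_add_card_inter J.1 I.1
  rw [Finset.inter_comm, I.2] at h2
  rw [J.2] at h3
  omega

theorem sum_single (O : Finset (Fin n) → ℕ) (S : Finset (Fin n)) :
    ∑ T, (O + (Pi.single S 1 : Finset (Fin n) → ℕ)) T = ∑ T, O T + 1 := by
  simp only [Pi.add_apply, Finset.sum_add_distrib]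
  congr 1
  rw [Finset.sum_eq_single S]
  · simp
  · intro b _ hb
    rw [Pi.single_eq_of_ne hb]
  · intro h; exact absurd (Finset.mem_univ _) h

theorem sum_sub_single (O : Finset (Fin n) → ℕ) (S : Finset (Fin n)) (h : O S ≠ 0) :
    ∑ T, (O - (Pi.single S 1 : Finset (Fin n) → ℕ)) T + 1 = ∑ T, O T := by
  rw [← sum_single]
  refine Finset.sum_congr rfl fun T _ => ?_
  rw [Pi.add_apply, Pi.sub_apply]
  by_cases hc : T = S
  · rw [hc, Pi.single_eq_same]; omega
  · rw [Pi.single_eq_of_ne hc]; omega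

theorem U_add (I0 : St n l) (O : Finset (Fin n) → ℕ) (S : Finset (Fin n)) :
    U I0 (O + (Pi.single S 1 : Finset (Fin n) → ℕ)) = U I0 O ∪ S := by
  ext x
  simp only [mem_U, Finset.mem_union]
  constructor
  · rintro (h | ⟨T, hT, hx⟩)
    · exact Or.inl (Or.inl h)
    · by_cases hc : T = S
      · exact Or.inr (hc ▸ hx)
      · rw [Pi.add_apply, Pi.single_eq_of_ne hc, add_zero] at hT
        exact Or.inl (Or.inr ⟨T, hT, hx⟩)
  · rintro ((h | ⟨T, hT, hx⟩) | h)
    · exact Or.inl h
    · refine Or.inr ⟨T, ?_, hx⟩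
      rw [Pi.add_apply]; omega
    · refine Or.inr ⟨S, ?_, h⟩
      rw [Pi.add_apply, Pi.single_eq_same]; omega

theorem U_sub_subset (I0 : St n l) (O : Finset (Fin n) → ℕ) (S : Finset (Fin n)) :
    U I0 (O - (Pi.single S 1 : Finset (Fin n) → ℕ)) ⊆ U I0 O := by
  intro x
  simp only [mem_U]
  rintro (h | ⟨T, hT, hx⟩)
  · exact Or.inl h
  · refine Or.inr ⟨T, ?_, hx⟩
    intro h0
    apply hT
    rw [Pi.sub_apply, h0, Nat.zero_sub]

/-- the private vertices of `S` -/
def Pr (I0 : St n l) (O : Finset (Fin n) → ℕ) (S : Finset (Fin n)) : Finset (Fin n) :=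
  U I0 O \ U I0 (O - (Pi.single S 1 : Finset (Fin n) → ℕ))

theorem mem_Pr {I0 : St n l} {O : Finset (Fin n) → ℕ} {S : Finset (Fin n)} {x : Fin n}
    (h : x ∈ Pr I0 O S) : x ∉ I0.1 ∧ x ∈ S ∧ O S = 1 ∧ ∀ T, T ≠ S → O T ≠ 0 → x ∉ T := by
  unfold Pr at h
  rw [Finset.mem_sdiff, mem_U, mem_U] at h
  obtain ⟨h1, h2⟩ := h
  push Not at h2
  obtain ⟨h3, h4⟩ := h2
  have h5 : ∀ T, T ≠ S → O T ≠ 0 → x ∉ T := by
    intro T hT hO
    apply h4
    rw [Pi.sub_apply, Pi.single_eq_of_ne hT]
    omega
  rcases h1 with h1 | ⟨T, hT, hx⟩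
  · exact absurd h1 h3
  · have hTS : T = S := by
      by_contra hc
      exact h5 T hc hT hx
    subst hTS
    refine ⟨h3, hx, ?_, h5⟩
    by_contra hc
    apply h4 T _ hx
    rw [Pi.sub_apply, Pi.single_eq_same]
    omega

theorem Pr_subset {r : ℕ} {I0 I : St n l} {O : Finset (Fin n) → ℕ} (h : Inv r I0 I O)
    (S : Finset (Fin n)) : Pr I0 O S ⊆ I.1 := by
  intro x hx
  obtain ⟨h1, h2, h3, h4⟩ := mem_Pr hx
  have h5 := congrFun h.par x
  by_contra hc
  simp only [ind, hc, if_false, Pi.add_apply, h1, zero_add, Finset.sum_apply, Pi.smul_apply] at h5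
  rw [Finset.sum_eq_single S] at h5
  · simp [h2, h3] at h5
  · intro T _ hT
    by_cases hO : O T = 0
    · simp [hO]
    · simp [h4 T hT hO]
  · intro h; exact absurd (Finset.mem_univ _) h

theorem Pr_card_le {k : ℕ} {I0 I J : St n l} {O : Finset (Fin n) → ℕ} (h : Inv (2 * k) I0 I O)
    (hJ : (symmDiff I.1 J.1).card = 2 * k) : (Pr I0 O (symmDiff I.1 J.1)).card ≤ k := by
  rw [← (card_sdiff_eq hJ).1]
  apply Finset.card_le_card
  intro x hx
  have h1 := Pr_subset h _ hx
  have h2 := (mem_Pr hx).2.1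
  rw [Finset.mem_symmDiff] at h2
  rw [Finset.mem_sdiff]
  tauto

theorem wt_sub {I0 : St n l} {b y : ℝ} (hb : 0 < b) (hy : 0 < y) {O : Finset (Fin n) → ℕ}
    {S : Finset (Fin n)} (hO : O S ≠ 0) :
    wt I0 b y (O - (Pi.single S 1 : Finset (Fin n) → ℕ)) =
      wt I0 b y O * (y ^ (Pr I0 O S).card / b) := by
  unfold wt
  have h1 := sum_sub_single O S hO
  have h2 : (U I0 O).card = (U I0 (O - (Pi.single S 1 : Finset (Fin n) → ℕ))).card +
      (Pr I0 O S).card := by
    unfold Pr
    rw [add_comm, Finset.card_sdiff_add_card_eq_card (U_sub_subset I0 O S)]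
  rw [← h1, h2, pow_add, pow_succ]
  field_simp
  rw [pow_add]

theorem wt_add {k : ℕ} {I0 I J : St n l} {b y : ℝ} (hy : 0 < y)
    {O : Finset (Fin n) → ℕ} (h : Inv (2 * k) I0 I O) (hJ : (symmDiff I.1 J.1).card = 2 * k) :
    wt I0 b y (O + (Pi.single (symmDiff I.1 J.1) 1 : Finset (Fin n) → ℕ)) =
      wt I0 b y O * (b / y ^ k) * ∏ x ∈ J.1 \ I.1, (if x ∈ U I0 O then y else 1) := by
  unfold wt
  rw [sum_single, U_add]
  have h1 : (U I0 O ∪ symmDiff I.1 J.1).card = (U I0 O).card + ((J.1 \ I.1) \ U I0 O).card := by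
    rw [← Finset.card_union_of_disjoint disjoint_sdiff]
    congr 1
    ext x
    have := @Inv.subset n l _ I0 I O h x
    simp only [Finset.mem_union, Finset.mem_symmDiff, Finset.mem_sdiff]
    tauto
  have h2 : ((J.1 \ I.1) \ U I0 O).card + ((J.1 \ I.1) ∩ U I0 O).card = k := by
    rw [Finset.card_sdiff_add_card_inter]
    exact (card_sdiff_eq hJ).2
  have h3 : ∏ x ∈ J.1 \ I.1, (if x ∈ U I0 O then y else 1) = y ^ ((J.1 \ I.1) ∩ U I0 O).card := by
    rw [Finset.prod_ite, Finset.prod_const_one, mul_one, Finset.prod_const]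
    congr 2
  rw [h1, h3, ← h2, pow_add, pow_add, pow_succ]
  field_simp
  rw [pow_add]
  ring

theorem card_U_le {r : ℕ} {I0 I : St n l} {O : Finset (Fin n) → ℕ} (h : Inv r I0 I O) :
    (U I0 O).card ≤ l + r * ∑ S, O S := by
  unfold U
  refine (Finset.card_union_le _ _).trans ?_
  rw [I0.2]
  apply Nat.add_le_add_left
  have h1 : (univ.filter (fun x : Fin n => ∃ S, O S ≠ 0 ∧ x ∈ S)) ⊆
      (univ.filter (fun S => O S ≠ 0)).biUnion id := by
    intro x hx
    simp only [Finset.mem_filter, Finset.mem_univ, true_and] at hx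
    obtain ⟨S, hS, hx⟩ := hx
    simp only [Finset.mem_biUnion, Finset.mem_filter, Finset.mem_univ, true_and, id]
    exact ⟨S, hS, hx⟩
  refine (Finset.card_le_card h1).trans (Finset.card_biUnion_le.trans ?_)
  rw [Finset.mul_sum, Finset.sum_filter]
  refine Finset.sum_le_sum fun S _ => ?_
  split_ifs with hS
  · rw [id, h.reg S hS]
    exact Nat.le_mul_of_pos_right _ (by omega)
  · exact Nat.zero_le _

/-- opening steps -/
theorem open_le {k N : ℕ} {I0 I : St n l} {b y : ℝ} (hb : 0 < b) (hy : 1 ≤ y)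
    {O : Finset (Fin n) → ℕ} (h : Inv (2 * k) I0 I O) (hN : ∑ S, O S ≤ N) :
    ∑ J : St n l, (if (symmDiff I.1 J.1).card = 2 * k then
      wt I0 b y (O + (Pi.single (symmDiff I.1 J.1) 1 : Finset (Fin n) → ℕ)) else 0) ≤
    (b / y ^ k * (l.choose k * ((n + (l + 2 * k * N) * y) ^ k / k.factorial))) * wt I0 b y O := by
  have hy0 : 0 < y := by linarith
  set ww : Fin n → ℝ := fun x => if x ∈ U I0 O then y else 1 with hww
  have hww0 : ∀ x, 0 ≤ ww x := fun x => by simp only [hww]; split_ifs <;> linarith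
  have hw := (wt_pos I0 b y hb hy0 O).le
  have e1 : ∑ J : St n l, (if (symmDiff I.1 J.1).card = 2 * k then
      wt I0 b y (O + (Pi.single (symmDiff I.1 J.1) 1 : Finset (Fin n) → ℕ)) else 0) =
      wt I0 b y O * (b / y ^ k) * ∑ J ∈ (univ : Finset (St n l)).filter
        (fun J => (symmDiff I.1 J.1).card = 2 * k), ∏ x ∈ J.1 \ I.1, ww x := by
    rw [Finset.mul_sum, ← Finset.sum_filter]
    refine Finset.sum_congr rfl fun J hJ => ?_
    rw [wt_add hy0 h (Finset.mem_filter.1 hJ).2]
  have e2 : ∑ J ∈ (univ : Finset (St n l)).filter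
        (fun J => (symmDiff I.1 J.1).card = 2 * k), ∏ x ∈ J.1 \ I.1, ww x ≤
      ∑ p ∈ I.1.powersetCard k ×ˢ (univ : Finset (Fin n)).powersetCard k, ∏ x ∈ p.2, ww x := by
    have e3 : ∑ J ∈ (univ : Finset (St n l)).filter
        (fun J => (symmDiff I.1 J.1).card = 2 * k), ∏ x ∈ J.1 \ I.1, ww x =
        ∑ p ∈ ((univ : Finset (St n l)).filter (fun J => (symmDiff I.1 J.1).card = 2 * k)).image
          (fun J => (I.1 \ J.1, J.1 \ I.1)), ∏ x ∈ p.2, ww x := by
      rw [Finset.sum_image]
      intro J _ J' _ hJJ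
      simp only [Prod.mk.injEq] at hJJ
      apply Subtype.ext
      ext x
      have h1 := congrArg (fun s => x ∈ s) hJJ.1
      have h2 := congrArg (fun s => x ∈ s) hJJ.2
      simp only [Finset.mem_sdiff, eq_iff_iff] at h1 h2
      tauto
    rw [e3]
    refine Finset.sum_le_sum_of_subset_of_nonneg ?_ ?_
    · intro p hp
      obtain ⟨J, hJ, rfl⟩ := Finset.mem_image.1 hp
      have hJ2 := card_sdiff_eq (Finset.mem_filter.1 hJ).2
      rw [Finset.mem_product, Finset.mem_powersetCard, Finset.mem_powersetCard]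
      exact ⟨⟨Finset.sdiff_subset, hJ2.1⟩, ⟨Finset.subset_univ _, hJ2.2⟩⟩
    · intro p _ _
      exact Finset.prod_nonneg fun x _ => hww0 x
  have e4 : ∑ p ∈ I.1.powersetCard k ×ˢ (univ : Finset (Fin n)).powersetCard k, ∏ x ∈ p.2, ww x =
      l.choose k * ∑ B ∈ (univ : Finset (Fin n)).powersetCard k, ∏ x ∈ B, ww x := by
    rw [Finset.sum_product]
    simp only [Finset.sum_const, Finset.card_powersetCard, I.2, nsmul_eq_mul]
  have e5 := esymm_le ww hww0 univ k
  have e6 : ∑ x, ww x ≤ n + (l + 2 * k * N) * y := by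
    have e7 : ∀ x, ww x ≤ 1 + if x ∈ U I0 O then y else 0 := by
      intro x; simp only [hww]; split_ifs <;> linarith
    refine (Finset.sum_le_sum fun x _ => e7 x).trans ?_
    rw [Finset.sum_add_distrib, ← Finset.sum_filter, Finset.sum_const, Finset.sum_const]
    simp only [Finset.card_univ, Fintype.card_fin, nsmul_eq_mul, mul_one, Finset.filter_univ_mem]
    have e8 : ((U I0 O).card : ℝ) ≤ l + 2 * k * N := by
      have h1 := card_U_le h
      have h2 : (U I0 O).card ≤ l + 2 * k * N := h1.trans (by gcongr)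
      exact_mod_cast h2
    have := mul_le_mul_of_nonneg_right e8 hy0.le
    linarith
  have e9 : ∑ B ∈ (univ : Finset (Fin n)).powersetCard k, ∏ x ∈ B, ww x ≤
      (n + (l + 2 * k * N) * y) ^ k / k.factorial := by
    rw [le_div_iff₀ (by positivity), mul_comm]
    refine e5.trans ?_
    exact pow_le_pow_left₀ (Finset.sum_nonneg fun x _ => hww0 x) e6 k
  rw [e1]
  calc wt I0 b y O * (b / y ^ k) * ∑ J ∈ (univ : Finset (St n l)).filter
        (fun J => (symmDiff I.1 J.1).card = 2 * k), ∏ x ∈ J.1 \ I.1, ww x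
      ≤ wt I0 b y O * (b / y ^ k) * (l.choose k * ((n + (l + 2 * k * N) * y) ^ k / k.factorial)) := by
        apply mul_le_mul_of_nonneg_left _ (by positivity)
        rw [e4] at e2
        exact e2.trans (mul_le_mul_of_nonneg_left e9 (by positivity))
    _ = _ := by ring

/-- closing steps -/
theorem close_le {k N : ℕ} (hk : 1 ≤ k) {I0 I : St n l} {b y : ℝ} (hb : 0 < b) (hy : 1 ≤ y)
    {O : Finset (Fin n) → ℕ} (h : Inv (2 * k) I0 I O) (hN : ∑ S, O S ≤ N) :
    ∑ J : St n l, (if (symmDiff I.1 J.1).card = 2 * k then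
      O (symmDiff I.1 J.1) *
        wt I0 b y (O - (Pi.single (symmDiff I.1 J.1) 1 : Finset (Fin n) → ℕ)) else 0) ≤
    (y ^ k / b * (l / k + N / y)) * wt I0 b y O := by
  have hy0 : 0 < y := by linarith
  have hk0 : (0 : ℝ) < k := by exact_mod_cast hk
  have hw := (wt_pos I0 b y hb hy0 O).le
  -- termwise bound
  have e1 : ∀ J : St n l, (if (symmDiff I.1 J.1).card = 2 * k then
      (O (symmDiff I.1 J.1) : ℝ) *
        wt I0 b y (O - (Pi.single (symmDiff I.1 J.1) 1 : Finset (Fin n) → ℕ)) else 0) ≤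
      wt I0 b y O * (y ^ k / b) * (((Pr I0 O (symmDiff I.1 J.1)).card : ℝ) / k +
        O (symmDiff I.1 J.1) / y) := by
    intro J
    have hpos : 0 ≤ wt I0 b y O * (y ^ k / b) * (((Pr I0 O (symmDiff I.1 J.1)).card : ℝ) / k +
        O (symmDiff I.1 J.1) / y) := by positivity
    by_cases hJ : (symmDiff I.1 J.1).card = 2 * k
    · rw [if_pos hJ]
      by_cases hO : O (symmDiff I.1 J.1) = 0
      · rw [hO] at hpos ⊢
        simpa using hpos
      · rw [wt_sub hb hy0 hO]
        have h1 := Pr_card_le h hJ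
        rcases eq_or_lt_of_le h1 with h2 | h2
        · -- regular
          have h3 : O (symmDiff I.1 J.1) = 1 := by
            have h4 : 0 < (Pr I0 O (symmDiff I.1 J.1)).card := by omega
            obtain ⟨x, hx⟩ := Finset.card_pos.1 h4
            exact (mem_Pr hx).2.2.1
          rw [h3, h2, div_self hk0.ne']
          have h5 : (0 : ℝ) ≤ ((1 : ℕ) : ℝ) / y := by positivity
          calc ((1 : ℕ) : ℝ) * (wt I0 b y O * (y ^ k / b)) = wt I0 b y O * (y ^ k / b) * 1 := by
                push_cast; ring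
            _ ≤ wt I0 b y O * (y ^ k / b) * (1 + ((1 : ℕ) : ℝ) / y) :=
                mul_le_mul_of_nonneg_left (by linarith) (by positivity)
        · -- irregular
          obtain ⟨m, hm⟩ : ∃ m, k = m + 1 := ⟨k - 1, by omega⟩
          have h3 : y ^ (Pr I0 O (symmDiff I.1 J.1)).card ≤ y ^ k / y := by
            rw [hm, pow_succ, mul_div_assoc, div_self hy0.ne', mul_one]
            exact pow_le_pow_right₀ hy (by omega)
          calc (O (symmDiff I.1 J.1) : ℝ) *
                (wt I0 b y O * (y ^ (Pr I0 O (symmDiff I.1 J.1)).card / b))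
              ≤ (O (symmDiff I.1 J.1) : ℝ) * (wt I0 b y O * ((y ^ k / y) / b)) := by gcongr
            _ = wt I0 b y O * (y ^ k / b) * (O (symmDiff I.1 J.1) / y) := by
                field_simp
            _ ≤ _ := by
                apply mul_le_mul_of_nonneg_left _ (by positivity)
                have : (0 : ℝ) ≤ ((Pr I0 O (symmDiff I.1 J.1)).card : ℝ) / k := by positivity
                linarith
    · rw [if_neg hJ]
      exact hpos
  refine (Finset.sum_le_sum fun J _ => e1 J).trans ?_
  rw [← Finset.mul_sum, Finset.sum_add_distrib, ← Finset.sum_div, ← Finset.sum_div]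
  -- the private sets are disjoint subsets of `I`
  have e2 : ∑ J : St n l, (Pr I0 O (symmDiff I.1 J.1)).card ≤ l := by
    rw [← Finset.card_biUnion]
    · refine (Finset.card_le_card (t := I.1) ?_).trans_eq I.2
      intro x hx
      rw [Finset.mem_biUnion] at hx
      obtain ⟨J, _, hx⟩ := hx
      exact Pr_subset h _ hx
    · intro J _ J' _ hJJ
      rw [Function.onFun, Finset.disjoint_left]
      intro x hx hx'
      have h1 := mem_Pr hx
      have h2 := mem_Pr hx'
      have h3 : symmDiff I.1 J'.1 ≠ symmDiff I.1 J.1 := by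
        intro hc
        apply hJJ
        apply Subtype.ext
        exact (symmDiff_right_injective I.1 hc).symm
      exact h1.2.2.2 _ h3 (by omega) h2.2.1
  have e3 : ∑ J : St n l, O (symmDiff I.1 J.1) ≤ N := by
    refine le_trans ?_ hN
    have e4 : ∑ J : St n l, O (symmDiff I.1 J.1) =
        ∑ S ∈ (univ : Finset (St n l)).image (fun J => symmDiff I.1 J.1), O S := by
      rw [Finset.sum_image]
      intro J _ J' _ hc
      exact Subtype.ext (symmDiff_right_injective I.1 hc)
    rw [e4]
    exact Finset.sum_le_sum_of_subset_of_nonneg (Finset.subset_univ _) (fun _ _ _ => Nat.zero_le _)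
  have e2' : ∑ J : St n l, ((Pr I0 O (symmDiff I.1 J.1)).card : ℝ) ≤ l := by exact_mod_cast e2
  have e3' : ∑ J : St n l, (O (symmDiff I.1 J.1) : ℝ) ≤ N := by exact_mod_cast e3
  calc wt I0 b y O * (y ^ k / b) * ((∑ J : St n l, ((Pr I0 O (symmDiff I.1 J.1)).card : ℝ)) / k +
        (∑ J : St n l, (O (symmDiff I.1 J.1) : ℝ)) / y)
      ≤ wt I0 b y O * (y ^ k / b) * (l / k + N / y) := by gcongr
    _ = _ := by ring

/-- the growth rate per step -/
noncomputable def Lam (n l k N : ℕ) (b y : ℝ) : ℝ :=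
  b / y ^ k * (l.choose k * ((n + (l + 2 * k * N) * y) ^ k / k.factorial)) +
    y ^ k / b * (l / k + N / y)

theorem F_le {k N : ℕ} (hk : 1 ≤ k) (I0 : St n l) {b y : ℝ} (hb : 0 < b) (hy : 1 ≤ y)
    (q : ℕ) (I : St n l) (O : Finset (Fin n) → ℕ) (h : Inv (2 * k) I0 I O)
    (hN : ∑ S, O S + q ≤ N) :
    F (2 * k) I0 q I O ≤ Lam n l k N b y ^ q * wt I0 b y O := by
  have hy0 : 0 < y := by linarith
  have hL : 0 ≤ Lam n l k N b y := by unfold Lam; positivity
  induction q generalizing I O with
  | zero =>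
    unfold F
    rw [pow_zero, one_mul]
    split_ifs with hc
    · rw [hc.2, wt_zero I0 b y hy0]
    · exact (wt_pos I0 b y hb hy0 O).le
  | succ q ih =>
    unfold F
    calc ∑ J : St n l, (if (symmDiff I.1 J.1).card = 2 * k then
          F (2 * k) I0 q J (O + Pi.single (symmDiff I.1 J.1) 1) +
            O (symmDiff I.1 J.1) * F (2 * k) I0 q J (O - Pi.single (symmDiff I.1 J.1) 1) else 0)
        ≤ ∑ J : St n l, (Lam n l k N b y ^ q * (if (symmDiff I.1 J.1).card = 2 * k then
            wt I0 b y (O + (Pi.single (symmDiff I.1 J.1) 1 : Finset (Fin n) → ℕ)) else 0) +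
            Lam n l k N b y ^ q * (if (symmDiff I.1 J.1).card = 2 * k then
              O (symmDiff I.1 J.1) *
                wt I0 b y (O - (Pi.single (symmDiff I.1 J.1) 1 : Finset (Fin n) → ℕ)) else 0)) := by
          refine Finset.sum_le_sum fun J _ => ?_
          by_cases hJ : (symmDiff I.1 J.1).card = 2 * k
          · simp only [if_pos hJ]
            apply add_le_add
            · refine ih J _ (h.add hJ) ?_
              rw [sum_single]; omega
            · by_cases hO : O (symmDiff I.1 J.1) = 0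
              · simp [hO]
              · rw [mul_left_comm]
                refine mul_le_mul_of_nonneg_left ?_ (Nat.cast_nonneg _)
                refine ih J _ (h.sub hO) ?_
                have := sum_sub_single O _ hO
                omega
          · simp [if_neg hJ]
      _ = Lam n l k N b y ^ q * (∑ J : St n l, (if (symmDiff I.1 J.1).card = 2 * k then
            wt I0 b y (O + (Pi.single (symmDiff I.1 J.1) 1 : Finset (Fin n) → ℕ)) else 0) +
            ∑ J : St n l, (if (symmDiff I.1 J.1).card = 2 * k then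
              O (symmDiff I.1 J.1) *
                wt I0 b y (O - (Pi.single (symmDiff I.1 J.1) 1 : Finset (Fin n) → ℕ)) else 0)) := by
          rw [Finset.sum_add_distrib, ← Finset.mul_sum, ← Finset.mul_sum, mul_add]
      _ ≤ Lam n l k N b y ^ q * (Lam n l k N b y * wt I0 b y O) := by
          apply mul_le_mul_of_nonneg_left _ (pow_nonneg hL q)
          have h1 := open_le (k := k) (N := N) hb hy h (by omega)
          have h2 := close_le (k := k) (N := N) hk hb hy h (by omega)
          unfold Lam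
          rw [add_mul]
          exact add_le_add h1 h2
      _ = _ := by rw [pow_succ]; ring

theorem F_diag_le {k N : ℕ} (hk : 1 ≤ k) (I0 : St n l) {b y : ℝ} (hb : 0 < b) (hy : 1 ≤ y) :
    F (2 * k) I0 N I0 0 ≤ Lam n l k N b y ^ N := by
  have h := F_le (N := N) hk I0 hb hy N I0 0 (inv_zero _ I0) (by simp)
  rwa [wt_zero I0 b y (by linarith), mul_one] at h

end

end Pool.Agent.V7H95.Kik
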