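import Pool.Agent.V7H95.Kik.Step

set_option autoImplicit false

open MeasureTheory ProbabilityTheory Finset

namespace Pool.Agent.V7H95.Kik

section
variable {ι : Type} [Fintype ι] [DecidableEq ι]

/-- the largest eigenvalue of a symmetric matrix, as the maximum of the quadratic form -/
noncomputable def lmax (M : Matrix ι ι ℝ) : ℝ :=
  sSup {t : ℝ | ∃ v : ι → ℝ, dotProduct v v = 1 ∧ t = dotProduct v (M.mulVec v)}

omit [DecidableEq ι] in
theorem quad_eq (M : Matrix ι ι ℝ) (v : ι → ℝ) :
    dotProduct v (M.mulVec v) = ∑ i, ∑ j, v i * M i j * v j := by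
  simp only [dotProduct, Matrix.mulVec, Finset.mul_sum]
  refine Finset.sum_congr rfl fun i _ => Finset.sum_congr rfl fun j _ => by ring

omit [DecidableEq ι] in
theorem abs_le_one {v : ι → ℝ} (hv : dotProduct v v = 1) (i : ι) : |v i| ≤ 1 := by
  have h1 : v i * v i ≤ 1 := by
    rw [← hv]
    exact Finset.single_le_sum (f := fun j => v j * v j) (fun j _ => mul_self_nonneg _)
      (Finset.mem_univ i)
  rw [← abs_mul_abs_self (v i)] at h1
  nlinarith [abs_nonneg (v i)]

omit [DecidableEq ι] in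
theorem quad_abs_le (M : Matrix ι ι ℝ) {v : ι → ℝ} (hv : dotProduct v v = 1) :
    |dotProduct v (M.mulVec v)| ≤ ∑ i, ∑ j, |M i j| := by
  rw [quad_eq]
  refine (Finset.abs_sum_le_sum_abs _ _).trans (Finset.sum_le_sum fun i _ => ?_)
  refine (Finset.abs_sum_le_sum_abs _ _).trans (Finset.sum_le_sum fun j _ => ?_)
  rw [abs_mul, abs_mul]
  have h1 := abs_le_one hv i
  have h2 := abs_le_one hv j
  calc |v i| * |M i j| * |v j| ≤ 1 * |M i j| * 1 := by gcongr
    _ = |M i j| := by ring

omit [DecidableEq ι] in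
theorem bdd (M : Matrix ι ι ℝ) :
    BddAbove {t : ℝ | ∃ v : ι → ℝ, dotProduct v v = 1 ∧ t = dotProduct v (M.mulVec v)} := by
  refine ⟨∑ i, ∑ j, |M i j|, ?_⟩
  rintro t ⟨v, hv, rfl⟩
  exact (le_abs_self _).trans (quad_abs_le M hv)

omit [DecidableEq ι] in
theorem le_lmax (M : Matrix ι ι ℝ) {v : ι → ℝ} (hv : dotProduct v v = 1) :
    dotProduct v (M.mulVec v) ≤ lmax M := le_csSup (bdd M) ⟨v, hv, rfl⟩

omit [DecidableEq ι] in
theorem lmax_le_add (M M' : Matrix ι ι ℝ) :
    lmax M ≤ lmax M' + ∑ i, ∑ j, |M i j - M' i j| := by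
  by_cases hne : ∃ v : ι → ℝ, dotProduct v v = 1
  · obtain ⟨v0, hv0⟩ := hne
    refine csSup_le ⟨_, v0, hv0, rfl⟩ ?_
    rintro t ⟨v, hv, rfl⟩
    have h1 := le_lmax M' hv
    have h2 := quad_abs_le (M - M') hv
    have h3 : dotProduct v ((M - M').mulVec v) =
        dotProduct v (M.mulVec v) - dotProduct v (M'.mulVec v) := by
      rw [Matrix.sub_mulVec, dotProduct_sub]
    rw [h3] at h2
    have h4 := (abs_le.1 h2).2
    simp only [Matrix.sub_apply] at h4
    linarith
  · have h1 : ∀ M : Matrix ι ι ℝ, lmax M = 0 := by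
      intro M
      unfold lmax
      have : {t : ℝ | ∃ v : ι → ℝ, dotProduct v v = 1 ∧ t = dotProduct v (M.mulVec v)} = ∅ := by
        ext t
        simp only [Set.mem_ofPred_eq, Set.mem_empty_iff_false, iff_false]
        rintro ⟨v, hv, _⟩
        exact hne ⟨v, hv⟩
      rw [this, Real.sSup_empty]
    rw [h1, h1, zero_add]
    exact Finset.sum_nonneg fun i _ => Finset.sum_nonneg fun j _ => abs_nonneg _

omit [DecidableEq ι] in
theorem lmax_abs_sub_le (M M' : Matrix ι ι ℝ) :
    |lmax M - lmax M'| ≤ ∑ i, ∑ j, |M i j - M' i j| := by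
  rw [abs_le]
  have h1 := lmax_le_add M M'
  have h2 := lmax_le_add M' M
  have h3 : ∑ i, ∑ j, |M' i j - M i j| = ∑ i, ∑ j, |M i j - M' i j| :=
    Finset.sum_congr rfl fun i _ => Finset.sum_congr rfl fun j _ => abs_sub_comm _ _
  rw [h3] at h2
  constructor <;> linarith

theorem lmax_nonneg (M : Matrix ι ι ℝ) (hM : ∀ i, M i i = 0) : 0 ≤ lmax M := by
  by_cases hne : Nonempty ι
  · obtain ⟨i⟩ := hne
    have hv : dotProduct (Pi.single i (1 : ℝ)) (Pi.single i (1 : ℝ)) = 1 := by simp
    refine le_trans (le_of_eq ?_) (le_lmax M hv)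
    simp [hM]
  · have : {t : ℝ | ∃ v : ι → ℝ, dotProduct v v = 1 ∧ t = dotProduct v (M.mulVec v)} = ∅ := by
      ext t
      simp only [Set.mem_ofPred_eq, Set.mem_empty_iff_false, iff_false]
      rintro ⟨v, hv, _⟩
      have : IsEmpty ι := not_nonempty_iff.1 hne
      simp [dotProduct] at hv
    unfold lmax
    rw [this, Real.sSup_empty]

omit [DecidableEq ι] in
/-- Cauchy–Schwarz for a symmetric matrix -/
theorem quad_sq_le (A : Matrix ι ι ℝ) (hA : A.IsSymm) {v : ι → ℝ} (hv : dotProduct v v = 1) :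
    (dotProduct v (A.mulVec v)) ^ 2 ≤ dotProduct v ((A * A).mulVec v) := by
  have h1 : dotProduct v ((A * A).mulVec v) = dotProduct (A.mulVec v) (A.mulVec v) := by
    rw [← Matrix.mulVec_mulVec, Matrix.dotProduct_mulVec, ← Matrix.mulVec_transpose, hA.eq]
  rw [h1]
  have h2 := Finset.sum_mul_sq_le_sq_mul_sq univ v (A.mulVec v)
  have h3 : ∑ i, v i ^ 2 = 1 := by
    rw [← hv]; exact Finset.sum_congr rfl fun i _ => by ring
  rw [h3, one_mul] at h2
  refine h2.trans (le_of_eq ?_)
  exact Finset.sum_congr rfl fun i _ => by ring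

omit [DecidableEq ι] in
theorem quad_le_trace (A : Matrix ι ι ℝ) (hA : A.IsSymm) {v : ι → ℝ} (hv : dotProduct v v = 1) :
    dotProduct v ((A * A).mulVec v) ≤ (A * A).trace := by
  have h1 : dotProduct v ((A * A).mulVec v) = dotProduct (A.mulVec v) (A.mulVec v) := by
    rw [← Matrix.mulVec_mulVec, Matrix.dotProduct_mulVec, ← Matrix.mulVec_transpose, hA.eq]
  rw [h1]
  have h2 : (A * A).trace = ∑ i, ∑ j, A i j ^ 2 := by
    simp only [Matrix.trace, Matrix.diag_apply, Matrix.mul_apply]
    refine Finset.sum_congr rfl fun i _ => Finset.sum_congr rfl fun j _ => ?_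
    rw [← hA.apply i j]; ring
  rw [h2]
  unfold dotProduct
  refine Finset.sum_le_sum fun i _ => ?_
  have h3 := Finset.sum_mul_sq_le_sq_mul_sq univ (A i) v
  have h4 : ∑ i, v i ^ 2 = 1 := by
    rw [← hv]; exact Finset.sum_congr rfl fun i _ => by ring
  rw [h4, mul_one] at h3
  refine le_trans (le_of_eq ?_) h3
  simp only [Matrix.mulVec, dotProduct]
  ring

theorem pow_symm (A : Matrix ι ι ℝ) (hA : A.IsSymm) (m : ℕ) : (A ^ m).IsSymm := by
  unfold Matrix.IsSymm
  rw [Matrix.transpose_pow, hA.eq]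

theorem quad_pow_le (A : Matrix ι ι ℝ) (hA : A.IsSymm) {v : ι → ℝ} (hv : dotProduct v v = 1)
    (j : ℕ) : (dotProduct v (A.mulVec v)) ^ (2 ^ (j + 1)) ≤
      dotProduct v ((A ^ 2 ^ (j + 1)).mulVec v) := by
  induction j with
  | zero =>
    have := quad_sq_le A hA hv
    simpa [pow_two] using this
  | succ j ih =>
    have h1 := quad_sq_le (A ^ 2 ^ (j + 1)) (pow_symm A hA _) hv
    have h2 : A ^ 2 ^ (j + 1) * A ^ 2 ^ (j + 1) = A ^ 2 ^ (j + 1 + 1) := by
      rw [← pow_add]; congr 1; ring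
    rw [h2] at h1
    refine le_trans ?_ h1
    have h3 : (dotProduct v (A.mulVec v)) ^ 2 ^ (j + 1 + 1) =
        ((dotProduct v (A.mulVec v)) ^ 2 ^ (j + 1)) ^ 2 := by
      rw [← pow_mul]; congr 1
    rw [h3]
    have h4 : 0 ≤ (dotProduct v (A.mulVec v)) ^ 2 ^ (j + 1) := by
      rw [pow_succ 2 j, pow_mul]; positivity
    exact pow_le_pow_left₀ h4 ih 2

theorem quad_pow_le_trace (A : Matrix ι ι ℝ) (hA : A.IsSymm) {v : ι → ℝ}
    (hv : dotProduct v v = 1) (j : ℕ) :
    (dotProduct v (A.mulVec v)) ^ (2 ^ (j + 1)) ≤ (A ^ 2 ^ (j + 1)).trace := by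
  refine (quad_pow_le A hA hv j).trans ?_
  have h2 : A ^ 2 ^ (j + 1) = A ^ 2 ^ j * A ^ 2 ^ j := by
    rw [← pow_add]; congr 1; ring
  rw [h2]
  exact quad_le_trace _ (pow_symm A hA _) hv

theorem lmax_le (A : Matrix ι ι ℝ) (hA : A.IsSymm) (j : ℕ) {t : ℝ} (ht : 0 < t) :
    lmax A ≤ t + (A ^ 2 ^ (j + 1)).trace / t ^ (2 ^ (j + 1) - 1) := by
  have hN : 1 ≤ 2 ^ (j + 1) := Nat.one_le_two_pow
  have htr : 0 ≤ (A ^ 2 ^ (j + 1)).trace := by
    have h2 : A ^ 2 ^ (j + 1) = A ^ 2 ^ j * A ^ 2 ^ j := by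
      rw [← pow_add]; congr 1; ring
    rw [h2, Matrix.trace]
    refine Finset.sum_nonneg fun i _ => ?_
    rw [Matrix.diag_apply, Matrix.mul_apply]
    refine Finset.sum_nonneg fun k _ => ?_
    rw [← (pow_symm A hA (2 ^ j)).apply i k]
    exact mul_self_nonneg _
  by_cases hne : ∃ v : ι → ℝ, dotProduct v v = 1
  · obtain ⟨v0, hv0⟩ := hne
    refine csSup_le ⟨_, v0, hv0, rfl⟩ ?_
    rintro x ⟨v, hv, rfl⟩
    have h1 := quad_pow_le_trace A hA hv j
    generalize dotProduct v (A.mulVec v) = x at h1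
    have h2 : x ^ 2 ^ (j + 1) / t ^ (2 ^ (j + 1) - 1) ≤
        (A ^ 2 ^ (j + 1)).trace / t ^ (2 ^ (j + 1) - 1) :=
      div_le_div_of_nonneg_right h1 (by positivity)
    have h3 : 0 ≤ x ^ 2 ^ (j + 1) := by
      rw [pow_succ 2 j, mul_comm, pow_mul]; positivity
    rcases le_or_gt x t with h | h
    · have : 0 ≤ x ^ 2 ^ (j + 1) / t ^ (2 ^ (j + 1) - 1) := by positivity
      linarith
    · have h4 : x ≤ x ^ 2 ^ (j + 1) / t ^ (2 ^ (j + 1) - 1) := by
        rw [le_div_iff₀ (by positivity)]
        have h5 : t ^ (2 ^ (j + 1) - 1) ≤ x ^ (2 ^ (j + 1) - 1) :=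
          pow_le_pow_left₀ ht.le h.le _
        calc x * t ^ (2 ^ (j + 1) - 1) ≤ x * x ^ (2 ^ (j + 1) - 1) :=
              mul_le_mul_of_nonneg_left h5 (by linarith)
          _ = x ^ 2 ^ (j + 1) := by
              rw [← pow_succ']; congr 1; omega
      linarith
  · have : {t : ℝ | ∃ v : ι → ℝ, dotProduct v v = 1 ∧ t = dotProduct v (A.mulVec v)} = ∅ := by
      ext t
      simp only [Set.mem_ofPred_eq, Set.mem_empty_iff_false, iff_false]
      rintro ⟨v, hv, _⟩
      exact hne ⟨v, hv⟩
    unfold lmax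
    rw [this, Real.sSup_empty]
    positivity

end

section
variable {n l : ℕ}

theorem kik_symm (r : ℕ) (c : ℝ) (Z : Finset (Fin n) → ℝ) : (kik n r l c Z).IsSymm := by
  apply Matrix.IsSymm.ext
  intro I J
  simp only [kik, Matrix.of_apply, symmDiff_comm]

theorem kik_diag {r : ℕ} (hr : 1 ≤ r) (c : ℝ) (Z : Finset (Fin n) → ℝ) (I : St n l) :
    kik n r l c Z I I = 0 := by
  simp only [kik, Matrix.of_apply, symmDiff_self, Finset.bot_eq_empty, Finset.card_empty]
  rw [if_neg (by omega)]

/-- the expected largest eigenvalue -/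
noncomputable def Emax (n r l : ℕ) (c : ℝ) : ℝ :=
  ∫ Z, lmax (kik n r l c Z) ∂(G (Finset (Fin n)))

theorem lmax_kik_continuous (r : ℕ) (c : ℝ) :
    Continuous (fun Z : Finset (Fin n) → ℝ => lmax (kik n r l c Z)) := by
  rw [continuous_iff_continuousAt]
  intro Z0
  rw [ContinuousAt, tendsto_iff_dist_tendsto_zero]
  have h1 : ∀ I J : St n l, Continuous (fun Z : Finset (Fin n) → ℝ => kik n r l c Z I J) := by
    intro I J
    unfold kik
    simp only [Matrix.of_apply]
    split_ifs
    · fun_prop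
    · fun_prop
  have h2 : Continuous (fun Z : Finset (Fin n) → ℝ =>
      ∑ I : St n l, ∑ J : St n l, |kik n r l c Z I J - kik n r l c Z0 I J|) := by
    refine continuous_finsetSum _ fun I _ => continuous_finsetSum _ fun J _ => ?_
    exact ((h1 I J).sub continuous_const).abs
  have h3 := h2.tendsto Z0
  simp only [sub_self, abs_zero, Finset.sum_const_zero] at h3
  refine squeeze_zero (fun _ => dist_nonneg) (fun Z => ?_) h3
  rw [Real.dist_eq]
  exact lmax_abs_sub_le _ _

theorem lmax_kik_integrable (r : ℕ) (c : ℝ) :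
    Integrable (fun Z : Finset (Fin n) → ℝ => lmax (kik n r l c Z)) (G (Finset (Fin n))) := by
  have h0 : ∀ Z : Finset (Fin n) → ℝ, |lmax (kik n r l c Z)| ≤
      |lmax (kik n r l c 0)| + ∑ I : St n l, ∑ J : St n l, |Z (symmDiff I.1 J.1)| := by
    intro Z
    have h1 := lmax_abs_sub_le (kik n r l c Z) (kik n r l c 0)
    have h2 : ∑ I : St n l, ∑ J : St n l, |kik n r l c Z I J - kik n r l c 0 I J| ≤
        ∑ I : St n l, ∑ J : St n l, |Z (symmDiff I.1 J.1)| := by
      refine Finset.sum_le_sum fun I _ => Finset.sum_le_sum fun J _ => ?_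
      unfold kik
      simp only [Matrix.of_apply]
      split_ifs
      · simp
      · simp
    have h3 := abs_sub_abs_le_abs_sub (lmax (kik n r l c Z)) (lmax (kik n r l c 0))
    linarith
  have h1 : Integrable (fun Z : Finset (Fin n) → ℝ => |lmax (kik n r l c 0)| +
      ∑ I : St n l, ∑ J : St n l, |Z (symmDiff I.1 J.1)|) (G (Finset (Fin n))) := by
    refine (integrable_const _).add ?_
    refine integrable_finsetSum _ fun I _ => integrable_finsetSum _ fun J _ => ?_
    exact (PF.coord _).integrable.abs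
  refine h1.mono' (lmax_kik_continuous r c).aestronglyMeasurable
    (Filter.Eventually.of_forall fun Z => ?_)
  rw [Real.norm_eq_abs]
  exact h0 Z

/-- the upper bound of the pure noise -/
theorem Emax_zero_le {k : ℕ} (hk : 1 ≤ k) (j : ℕ) {b y t : ℝ} (hb : 0 < b) (hy : 1 ≤ y)
    (ht : 0 < t) :
    Emax n (2 * k) l 0 ≤ t + n.choose l * Lam n l k (2 ^ (j + 1)) b y ^ (2 ^ (j + 1)) /
      t ^ (2 ^ (j + 1) - 1) := by
  have hint : ∀ I : St n l, Integrable
      (fun Z => (kik n (2 * k) l 0 Z ^ 2 ^ (j + 1)) I I) (G (Finset (Fin n))) :=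
    fun I => (kik_pow_PF _ I I).integrable
  have hint2 : Integrable (fun Z => t + (kik n (2 * k) l 0 Z ^ 2 ^ (j + 1)).trace /
      t ^ (2 ^ (j + 1) - 1)) (G (Finset (Fin n))) := by
    refine (integrable_const _).add (Integrable.div_const ?_ _)
    unfold Matrix.trace
    exact integrable_finsetSum _ fun I _ => hint I
  have h1 : Emax n (2 * k) l 0 ≤ ∫ Z, (t + (kik n (2 * k) l 0 Z ^ 2 ^ (j + 1)).trace /
      t ^ (2 ^ (j + 1) - 1)) ∂(G (Finset (Fin n))) :=
    integral_mono (lmax_kik_integrable _ _) hint2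
      (fun Z => lmax_le _ (kik_symm _ _ _) j ht)
  refine h1.trans ?_
  have h2 : ∫ Z, (t + (kik n (2 * k) l 0 Z ^ 2 ^ (j + 1)).trace /
      t ^ (2 ^ (j + 1) - 1)) ∂(G (Finset (Fin n))) =
      t + (∑ I : St n l, F (2 * k) I (2 ^ (j + 1)) I 0) / t ^ (2 ^ (j + 1) - 1) := by
    rw [integral_add (integrable_const _), integral_const, integral_div]
    · unfold Matrix.trace
      simp only [Matrix.diag_apply]
      rw [integral_finsetSum _ fun I _ => hint I]
      simp only [integral_pow_diag]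
      simp
    · refine Integrable.div_const ?_ _
      unfold Matrix.trace
      exact integrable_finsetSum _ fun I _ => hint I
  rw [h2]
  have h3 : ∑ I : St n l, F (2 * k) I (2 ^ (j + 1)) I 0 ≤
      n.choose l * Lam n l k (2 ^ (j + 1)) b y ^ (2 ^ (j + 1)) := by
    refine (Finset.sum_le_sum fun I _ => F_diag_le hk I hb hy).trans ?_
    rw [Finset.sum_const, nsmul_eq_mul]
    have : (Finset.univ : Finset (St n l)).card = n.choose l := by
      rw [Finset.card_univ, Fintype.card_finset_len, Fintype.card_fin]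
    rw [this]
  have h4 : 0 < t ^ (2 ^ (j + 1) - 1) := by positivity
  have h5 := div_le_div_of_nonneg_right h3 h4.le
  linarith

/-- the number of neighbours -/
theorem card_nbr {k : ℕ} (I : St n l) :
    l.choose k * (n - l).choose k ≤
      ((univ : Finset (St n l)).filter (fun J => (symmDiff I.1 J.1).card = 2 * k)).card := by
  have h1 : l.choose k * (n - l).choose k =
      (I.1.powersetCard k ×ˢ (I.1ᶜ).powersetCard k).card := by
    rw [Finset.card_product, Finset.card_powersetCard, Finset.card_powersetCard, I.2,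
      Finset.card_compl, I.2, Fintype.card_fin]
  rw [h1]
  have hc : ∀ p ∈ I.1.powersetCard k ×ˢ (I.1ᶜ).powersetCard k, ((I.1 \ p.1) ∪ p.2).card = l ∧
      (symmDiff I.1 ((I.1 \ p.1) ∪ p.2)) = p.1 ∪ p.2 ∧ (p.1 ∪ p.2).card = 2 * k := by
    intro p hp
    rw [Finset.mem_product, Finset.mem_powersetCard, Finset.mem_powersetCard] at hp
    obtain ⟨⟨h2, h3⟩, h4, h5⟩ := hp
    have h6 : Disjoint (I.1 \ p.1) p.2 := by
      rw [Finset.disjoint_left]
      intro x hx hx'
      exact (Finset.mem_compl.1 (h4 hx')) (Finset.mem_sdiff.1 hx).1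
    have h7 : Disjoint p.1 p.2 := by
      rw [Finset.disjoint_left]
      intro x hx hx'
      exact (Finset.mem_compl.1 (h4 hx')) (h2 hx)
    refine ⟨?_, ?_, ?_⟩
    · rw [Finset.card_union_of_disjoint h6, h5]
      have h8 := Finset.card_sdiff_add_card_eq_card h2
      rw [h3, I.2] at h8
      exact h8
    · ext x
      simp only [Finset.mem_symmDiff, Finset.mem_union, Finset.mem_sdiff]
      have h9 := @h2 x
      have h10 : x ∈ p.2 → x ∉ I.1 := fun h => Finset.mem_compl.1 (h4 h)
      tauto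
    · rw [Finset.card_union_of_disjoint h7, h3, h5]; ring
  refine Finset.card_le_card_of_injOn
    (fun p => if h : ((I.1 \ p.1) ∪ p.2).card = l then ⟨(I.1 \ p.1) ∪ p.2, h⟩ else I) ?_ ?_
  · intro p hp
    obtain ⟨h2, h3, h4⟩ := hc p hp
    simp only [dif_pos h2]
    rw [Finset.mem_coe, Finset.mem_filter]
    refine ⟨Finset.mem_univ _, ?_⟩
    simp only
    rw [h3, h4]
  · intro p hp q hq hpq
    obtain ⟨h2, h3, h4⟩ := hc p hp
    obtain ⟨h2', h3', h4'⟩ := hc q hq
    simp only [dif_pos h2, dif_pos h2', Subtype.mk.injEq] at hpq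
    rw [Finset.mem_coe, Finset.mem_product, Finset.mem_powersetCard, Finset.mem_powersetCard] at hp hq
    obtain ⟨⟨a1, a2⟩, a3, a4⟩ := hp
    obtain ⟨⟨b1, b2⟩, b3, b4⟩ := hq
    have key : ∀ x, x ∈ (I.1 \ p.1) ∪ p.2 ↔ x ∈ (I.1 \ q.1) ∪ q.2 := fun x => by rw [hpq]
    simp only [Finset.mem_union, Finset.mem_sdiff] at key
    have a3' : ∀ x, x ∈ p.2 → x ∉ I.1 := fun x h => Finset.mem_compl.1 (a3 h)
    have b3' : ∀ x, x ∈ q.2 → x ∉ I.1 := fun x h => Finset.mem_compl.1 (b3 h)
    refine Prod.ext ?_ ?_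
    · ext x
      have c1 := key x
      have c2 := @a1 x
      have c3 := @b1 x
      have c4 := a3' x
      have c5 := b3' x
      tauto
    · ext x
      have c1 := key x
      have c2 := @a1 x
      have c3 := @b1 x
      have c4 := a3' x
      have c5 := b3' x
      tauto

/-- the lower bound of the signal -/
theorem Emax_ge {k : ℕ} {c : ℝ} (hc : 0 ≤ c) (hl : l ≤ n) :
    c * (l.choose k * (n - l).choose k) ≤ Emax n (2 * k) l c := by
  have hn : 0 < (n.choose l : ℝ) := by exact_mod_cast Nat.choose_pos hl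
  have hcard : (Finset.univ : Finset (St n l)).card = n.choose l := by
    rw [Finset.card_univ, Fintype.card_finset_len, Fintype.card_fin]
  set v : St n l → ℝ := fun _ => 1 / Real.sqrt (n.choose l) with hv
  have hsq : Real.sqrt (n.choose l) * Real.sqrt (n.choose l) = n.choose l :=
    Real.mul_self_sqrt hn.le
  have hs0 : Real.sqrt (n.choose l) ≠ 0 := (Real.sqrt_pos.2 hn).ne'
  have hinv : 1 / Real.sqrt (n.choose l) * (1 / Real.sqrt (n.choose l)) = 1 / (n.choose l : ℝ) := by
    rw [div_mul_div_comm, one_mul, hsq]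
  have hv1 : dotProduct v v = 1 := by
    simp only [dotProduct, hv, Finset.sum_const, hcard, nsmul_eq_mul]
    rw [hinv, mul_one_div, div_self hn.ne']
  have h1 : ∀ Z, ∑ I : St n l, ∑ J : St n l, kik n (2 * k) l c Z I J / n.choose l ≤
      lmax (kik n (2 * k) l c Z) := by
    intro Z
    refine le_trans (le_of_eq ?_) (le_lmax _ hv1)
    rw [quad_eq]
    refine Finset.sum_congr rfl fun I _ => Finset.sum_congr rfl fun J _ => ?_
    simp only [hv]
    rw [mul_comm (1 / Real.sqrt (n.choose l)) (kik n (2 * k) l c Z I J), mul_assoc, hinv,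
      mul_one_div]
  have hint : ∀ I J : St n l, Integrable (fun Z => kik n (2 * k) l c Z I J / n.choose l)
      (G (Finset (Fin n))) := by
    intro I J
    refine Integrable.div_const ?_ _
    unfold kik
    simp only [Matrix.of_apply]
    split_ifs
    · exact (integrable_const _).add (PF.coord _).integrable
    · exact integrable_zero _ _ _
  have h2 : ∫ Z, ∑ I : St n l, ∑ J : St n l, kik n (2 * k) l c Z I J / n.choose l
      ∂(G (Finset (Fin n))) ≤ Emax n (2 * k) l c :=
    integral_mono (integrable_finsetSum _ fun I _ => integrable_finsetSum _ fun J _ => hint I J)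
      (lmax_kik_integrable _ _) h1
  refine le_trans ?_ h2
  rw [integral_finsetSum _ fun I _ => integrable_finsetSum _ fun J _ => hint I J]
  have h3 : ∀ I J : St n l, ∫ Z, kik n (2 * k) l c Z I J / n.choose l ∂(G (Finset (Fin n))) =
      if (symmDiff I.1 J.1).card = 2 * k then c / n.choose l else 0 := by
    intro I J
    rw [integral_div]
    unfold kik
    simp only [Matrix.of_apply]
    split_ifs
    · rw [integral_add (integrable_const _) (PF.coord _).integrable, integral_const]
      have h4 : ∫ Z : Finset (Fin n) → ℝ, Z (symmDiff I.1 J.1) ∂(G (Finset (Fin n))) = 0 := by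
        have h5 := wick_integral (κ := Finset (Fin n)) (Pi.single (symmDiff I.1 J.1) 1)
        have h6 : (Pi.single (symmDiff I.1 J.1) 1 : Finset (Fin n) → ℕ) ≠ 0 := by
          intro h
          have := congrFun h (symmDiff I.1 J.1)
          simp at this
        rw [if_neg h6] at h5
        rw [← h5]
        congr 1
        funext Z
        unfold wick
        rw [Finset.prod_eq_single (symmDiff I.1 J.1)]
        · simp [He]
        · intro b _ hb
          rw [Pi.single_eq_of_ne hb]; simp [He]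
        · intro h; exact absurd (Finset.mem_univ _) h
      rw [h4]
      simp
    · simp
  have h4 : ∀ I : St n l, ∫ Z, ∑ J : St n l, kik n (2 * k) l c Z I J / n.choose l
      ∂(G (Finset (Fin n))) = ((univ : Finset (St n l)).filter
        (fun J => (symmDiff I.1 J.1).card = 2 * k)).card * (c / n.choose l) := by
    intro I
    rw [integral_finsetSum _ fun J _ => hint I J]
    simp only [h3]
    rw [← Finset.sum_filter, Finset.sum_const, nsmul_eq_mul]
  simp only [h4]
  calc c * (l.choose k * (n - l).choose k)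
      = ∑ _I : St n l, ((l.choose k * (n - l).choose k : ℕ) : ℝ) * (c / n.choose l) := by
        rw [Finset.sum_const, hcard, nsmul_eq_mul]
        push_cast
        field_simp
    _ ≤ _ := by
        refine Finset.sum_le_sum fun I _ => ?_
        have h5 := card_nbr (k := k) I
        have h6 : 0 ≤ c / n.choose l := div_nonneg hc hn.le
        exact mul_le_mul_of_nonneg_right (by exact_mod_cast h5) h6

theorem gauss_abs_pos : 0 < ∫ x, |x| ∂(gaussianReal 0 1) := by
  have hint : Integrable (fun x : ℝ => |x|) (gaussianReal 0 1) := by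
    have := poly_integrable Polynomial.X
    simpa using this.abs
  rw [integral_pos_iff_support_of_nonneg (fun x => abs_nonneg x) hint]
  have h1 : Function.support (fun x : ℝ => |x|) = {0}ᶜ := by
    ext x; simp
  rw [h1, prob_compl_eq_one_sub (measurableSet_singleton 0)]
  have : (gaussianReal 0 1) {(0 : ℝ)} = 0 := by
    have := nullSingletonClass_gaussianReal (μ := 0) (v := 1) (by norm_num)
    exact measure_singleton _
  rw [this]
  simp

/-- the pure noise has a positive expected largest eigenvalue -/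
theorem Emax_zero_pos {k : ℕ} (hk : 1 ≤ k) (hkl : k ≤ l) (hn : l + k ≤ n) :
    0 < Emax n (2 * k) l 0 := by
  -- two neighbours
  obtain ⟨I0, hI0⟩ : ∃ I0 : Finset (Fin n), I0.card = l := by
    obtain ⟨t, _, ht⟩ := Finset.exists_subset_card_eq (s := (univ : Finset (Fin n))) (n := l)
      (by rw [Finset.card_univ, Fintype.card_fin]; omega)
    exact ⟨t, ht⟩
  set I : St n l := ⟨I0, hI0⟩
  have h1 := card_nbr (k := k) I
  have h2 : 0 < l.choose k * (n - l).choose k :=
    Nat.mul_pos (Nat.choose_pos hkl) (Nat.choose_pos (by omega))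
  obtain ⟨J, hJ⟩ := Finset.card_pos.1 (lt_of_lt_of_le h2 h1)
  have hJ := (Finset.mem_filter.1 hJ).2
  have hIJ : I ≠ J := by
    intro h
    rw [h] at hJ
    simp at hJ
    omega
  have h3 : ∀ Z, |Z (symmDiff I.1 J.1)| ≤ lmax (kik n (2 * k) l 0 Z) := by
    intro Z
    have hM : kik n (2 * k) l 0 Z I J = Z (symmDiff I.1 J.1) := by simp [kik, hJ]
    have hM' : kik n (2 * k) l 0 Z J I = Z (symmDiff I.1 J.1) := by
      rw [(kik_symm (2 * k) 0 Z).apply, hM]
    have h4 : ∀ s : ℝ, s * s = 1 → s * Z (symmDiff I.1 J.1) ≤ lmax (kik n (2 * k) l 0 Z) := by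
      intro s hs
      set v : St n l → ℝ := fun K => if K = I then 1 / Real.sqrt 2 else
        if K = J then s / Real.sqrt 2 else 0 with hv
      have hsq : Real.sqrt 2 * Real.sqrt 2 = 2 := Real.mul_self_sqrt (by norm_num)
      have hs0 : Real.sqrt 2 ≠ 0 := by positivity
      have e1 : ∀ f : St n l → ℝ, (∀ K, K ≠ I → K ≠ J → f K = 0) → ∑ K, f K = f I + f J := by
        intro f hf
        rw [← Finset.sum_pair hIJ]
        symm
        refine Finset.sum_subset (Finset.subset_univ _) fun K _ hK => ?_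
        simp only [Finset.mem_insert, Finset.mem_singleton, not_or] at hK
        exact hf K hK.1 hK.2
      have hvI : v I = 1 / Real.sqrt 2 := by simp [hv]
      have hvJ : v J = s / Real.sqrt 2 := by simp [hv, hIJ.symm]
      have hvK : ∀ K, K ≠ I → K ≠ J → v K = 0 := by
        intro K h5 h6
        simp [hv, h5, h6]
      have hv1 : dotProduct v v = 1 := by
        unfold dotProduct
        rw [e1 _ (fun K h5 h6 => by rw [hvK K h5 h6, zero_mul]), hvI, hvJ]
        field_simp
        nlinarith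
      refine le_trans (le_of_eq ?_) (le_lmax _ hv1)
      rw [quad_eq, e1 _ (fun K h5 h6 => by simp [hvK K h5 h6]),
        e1 _ (fun K h5 h6 => by simp [hvK K h5 h6]), e1 _ (fun K h5 h6 => by simp [hvK K h5 h6]),
        hM, hM', kik_diag (by omega), kik_diag (by omega), hvI, hvJ]
      field_simp
      rw [Real.sq_sqrt (by norm_num)]
      ring
    have h5 := h4 1 (by norm_num)
    have h6 := h4 (-1) (by norm_num)
    rw [abs_le']
    constructor <;> linarith
  have h4 : ∫ Z : Finset (Fin n) → ℝ, |Z (symmDiff I.1 J.1)| ∂(G (Finset (Fin n))) ≤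
      Emax n (2 * k) l 0 :=
    integral_mono (PF.coord _).integrable.abs (lmax_kik_integrable _ _) h3
  have h5 : ∫ Z : Finset (Fin n) → ℝ, |Z (symmDiff I.1 J.1)| ∂(G (Finset (Fin n))) =
      ∫ x, |x| ∂(gaussianReal 0 1) := by
    have hmp := measurePreserving_eval (fun _ : Finset (Fin n) => gaussianReal 0 1) (symmDiff I.1 J.1)
    rw [← hmp.map_eq, integral_map hmp.measurable.aemeasurable continuous_abs.aestronglyMeasurable]
  rw [h5] at h4
  exact lt_of_lt_of_le gauss_abs_pos h4

end

end Pool.Agent.V7H95.Kik
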