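import Pool.Agent.V7H95.Kik.Herm

set_option autoImplicit false

open MeasureTheory ProbabilityTheory Finset

namespace Pool.Agent.V7H95.Kik

/-- states: sets of `l` vertices -/
abbrev St (n l : ℕ) : Type := {K : Finset (Fin n) // K.card = l}

/-- the Kikuchi matrix with entries `c + Z (I Δ J)` if `|I Δ J| = r`, and `0` otherwise -/
def kik (n r l : ℕ) (c : ℝ) (Z : Finset (Fin n) → ℝ) : Matrix (St n l) (St n l) ℝ :=
  Matrix.of fun I J => if (symmDiff I.1 J.1).card = r then c + Z (symmDiff I.1 J.1) else 0

/-- the weighted number of walks with open hyperedges `O` -/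
noncomputable def F {n l : ℕ} (r : ℕ) (I0 : St n l) : ℕ → St n l → (Finset (Fin n) → ℕ) → ℝ
  | 0, I, O => if I = I0 ∧ O = 0 then 1 else 0
  | q + 1, I, O => ∑ J : St n l, if (symmDiff I.1 J.1).card = r then
      F r I0 q J (O + Pi.single (symmDiff I.1 J.1) 1) +
        O (symmDiff I.1 J.1) * F r I0 q J (O - Pi.single (symmDiff I.1 J.1) 1) else 0

theorem kik_PF {n r l : ℕ} (I J : St n l) : PF (fun Z => kik n r l 0 Z I J) := by
  unfold kik
  simp only [Matrix.of_apply]
  split_ifs with h
  · simp only [zero_add]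
    exact PF.coord _
  · exact PF.const 0

theorem kik_pow_PF {n r l : ℕ} (q : ℕ) (I J : St n l) : PF (fun Z => (kik n r l 0 Z ^ q) I J) := by
  induction q generalizing I with
  | zero => simp only [pow_zero]; exact PF.const _
  | succ q ih =>
    simp only [pow_succ', Matrix.mul_apply]
    exact PF.sum _ fun K _ => (kik_PF I K).mul (ih K)

theorem integral_pow {n l : ℕ} (r : ℕ) (I0 : St n l) (q : ℕ) (I : St n l)
    (O : Finset (Fin n) → ℕ) :
    ∫ Z, wick O Z * (kik n r l 0 Z ^ q) I I0 ∂(G (Finset (Fin n))) = F r I0 q I O := by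
  induction q generalizing I O with
  | zero =>
    simp only [pow_zero, F, Matrix.one_apply]
    rw [integral_mul_const, wick_integral]
    by_cases h1 : I = I0 <;> by_cases h2 : O = 0 <;> simp [h1, h2]
  | succ q ih =>
    simp only [pow_succ', Matrix.mul_apply, F]
    have e1 : ∀ Z, wick O Z * ∑ J, kik n r l 0 Z I J * (kik n r l 0 Z ^ q) J I0 =
        ∑ J : St n l, if (symmDiff I.1 J.1).card = r then
          (wick (O + Pi.single (symmDiff I.1 J.1) 1) Z * (kik n r l 0 Z ^ q) J I0 +
          O (symmDiff I.1 J.1) * (wick (O - Pi.single (symmDiff I.1 J.1) 1) Z *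
            (kik n r l 0 Z ^ q) J I0)) else 0 := by
      intro Z
      rw [Finset.mul_sum]
      refine Finset.sum_congr rfl fun J _ => ?_
      by_cases h : (symmDiff I.1 J.1).card = r
      · rw [if_pos h]
        have h1 : kik n r l 0 Z I J = Z (symmDiff I.1 J.1) := by simp [kik, h]
        rw [h1]
        have h2 := wick_mul O (symmDiff I.1 J.1) Z
        rw [show wick O Z * (Z (symmDiff I.1 J.1) * (kik n r l 0 Z ^ q) J I0) =
          (Z (symmDiff I.1 J.1) * wick O Z) * (kik n r l 0 Z ^ q) J I0 by ring, h2]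
        ring
      · rw [if_neg h]
        have h1 : kik n r l 0 Z I J = 0 := by simp [kik, h]
        rw [h1]; ring
    simp only [e1]
    have hint : ∀ (O' : Finset (Fin n) → ℕ) (J : St n l),
        Integrable (fun Z => wick O' Z * (kik n r l 0 Z ^ q) J I0) (G (Finset (Fin n))) :=
      fun O' J => ((wick_PF O').mul (kik_pow_PF q J I0)).integrable
    rw [integral_finsetSum]
    · refine Finset.sum_congr rfl fun J _ => ?_
      by_cases h : (symmDiff I.1 J.1).card = r
      · simp only [if_pos h]
        rw [integral_add (hint _ _) ((hint _ _).const_mul _), integral_const_mul, ih, ih]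
      · simp only [if_neg h, integral_zero]
    · intro J _
      by_cases h : (symmDiff I.1 J.1).card = r
      · simp only [if_pos h]
        exact (hint _ _).add ((hint _ _).const_mul _)
      · simp only [if_neg h]
        exact integrable_zero _ _ _

theorem integral_pow_diag {n l : ℕ} (r : ℕ) (I0 : St n l) (q : ℕ) :
    ∫ Z, (kik n r l 0 Z ^ q) I0 I0 ∂(G (Finset (Fin n))) = F r I0 q I0 0 := by
  rw [← integral_pow]
  refine integral_congr_ae (Filter.Eventually.of_forall fun Z => ?_)
  have : wick (0 : Finset (Fin n) → ℕ) Z = 1 := by simp [wick, He]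
  simp only [this, one_mul]

theorem F_nonneg {n l : ℕ} (r : ℕ) (I0 : St n l) (q : ℕ) (I : St n l) (O : Finset (Fin n) → ℕ) :
    0 ≤ F r I0 q I O := by
  induction q generalizing I O with
  | zero => unfold F; split_ifs <;> norm_num
  | succ q ih =>
    unfold F
    refine Finset.sum_nonneg fun J _ => ?_
    split_ifs
    · exact add_nonneg (ih _ _) (mul_nonneg (Nat.cast_nonneg _) (ih _ _))
    · exact le_rfl

/-- indicator modulo two -/
def ind {n : ℕ} (A : Finset (Fin n)) : Fin n → ZMod 2 := fun x => if x ∈ A then 1 else 0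

theorem ind_symmDiff {n : ℕ} (A B : Finset (Fin n)) : ind (symmDiff A B) = ind A + ind B := by
  funext x
  simp only [ind, Pi.add_apply, Finset.mem_symmDiff]
  by_cases h1 : x ∈ A <;> by_cases h2 : x ∈ B <;> simp [h1, h2]
  decide

/-- the state `I` is determined by the open hyperedges -/
structure Inv {n l : ℕ} (r : ℕ) (I0 I : St n l) (O : Finset (Fin n) → ℕ) : Prop where
  par : ind I.1 = ind I0.1 + ∑ S, O S • ind S
  reg : ∀ S, O S ≠ 0 → S.card = r

theorem inv_zero {n l : ℕ} (r : ℕ) (I0 : St n l) : Inv r I0 I0 0 :=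
  ⟨by simp, fun S h => absurd rfl h⟩

theorem zmod_add_self {n : ℕ} (f : Fin n → ZMod 2) : f + f = 0 := by
  funext x
  have : ∀ a : ZMod 2, a + a = 0 := by decide
  exact this _

theorem Inv.add {n l r : ℕ} {I0 I J : St n l} {O : Finset (Fin n) → ℕ} (h : Inv r I0 I O)
    (hJ : (symmDiff I.1 J.1).card = r) :
    Inv r I0 J (O + Pi.single (symmDiff I.1 J.1) 1) := by
  constructor
  · have e1 : ind J.1 = ind I.1 + ind (symmDiff I.1 J.1) := by
      rw [ind_symmDiff, ← add_assoc, zmod_add_self, zero_add]
    have e2 : ∑ S, (O + (Pi.single (symmDiff I.1 J.1) 1 : Finset (Fin n) → ℕ)) S • ind S =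
        ∑ S, O S • ind S + ind (symmDiff I.1 J.1) := by
      simp only [Pi.add_apply, add_smul, Finset.sum_add_distrib]
      congr 1
      rw [Finset.sum_eq_single (symmDiff I.1 J.1)]
      · simp
      · intro b _ hb
        rw [Pi.single_eq_of_ne hb, zero_smul]
      · intro h; exact absurd (Finset.mem_univ _) h
    rw [e1, e2, h.par, add_assoc]
  · intro S hS
    by_cases hc : S = symmDiff I.1 J.1
    · rw [hc, hJ]
    · rw [Pi.add_apply, Pi.single_eq_of_ne hc, add_zero] at hS
      exact h.reg S hS

theorem Inv.sub {n l r : ℕ} {I0 I J : St n l} {O : Finset (Fin n) → ℕ} (h : Inv r I0 I O)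
    (hO : O (symmDiff I.1 J.1) ≠ 0) :
    Inv r I0 J (O - Pi.single (symmDiff I.1 J.1) 1) := by
  constructor
  · have e1 : ind J.1 = ind I.1 + ind (symmDiff I.1 J.1) := by
      rw [ind_symmDiff, ← add_assoc, zmod_add_self, zero_add]
    have e2 : ∑ S, O S • ind S =
        ∑ S, (O - (Pi.single (symmDiff I.1 J.1) 1 : Finset (Fin n) → ℕ)) S • ind S +
          ind (symmDiff I.1 J.1) := by
      have e3 : ∑ S, (Pi.single (symmDiff I.1 J.1) 1 : Finset (Fin n) → ℕ) S • ind S =
          ind (symmDiff I.1 J.1) := by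
        rw [Finset.sum_eq_single (symmDiff I.1 J.1)]
        · simp
        · intro b _ hb
          rw [Pi.single_eq_of_ne hb, zero_smul]
        · intro h; exact absurd (Finset.mem_univ _) h
      rw [← e3, ← Finset.sum_add_distrib]
      refine Finset.sum_congr rfl fun S _ => ?_
      rw [← add_smul]
      congr 1
      by_cases hc : S = symmDiff I.1 J.1
      · rw [hc, Pi.sub_apply, Pi.single_eq_same]; omega
      · rw [Pi.sub_apply, Pi.single_eq_of_ne hc]; omega
    rw [e1, h.par, e2, add_assoc, add_assoc, zmod_add_self, add_zero]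
  · intro S hS
    apply h.reg S
    intro h0
    apply hS
    rw [Pi.sub_apply, h0, Nat.zero_sub]

end Pool.Agent.V7H95.Kik
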